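import Mathlib

set_option autoImplicit false

/-! Lengths and first letters of elements of amalgamated products, and families of maps between
amalgamated products. -/

namespace Pool.Agent.Q257.Sep

open Monoid Monoid.PushoutI Filter

section Amal

variable {ι : Type} {G : ι → Type} {H : Type} [∀ i, Group (G i)] [Group H] {φ : ∀ i, H →* G i}

open Classical in
/-- the normal word of an element -/
noncomputable def nw (hφ : ∀ i, Function.Injective (φ i)) (g : PushoutI φ) :
    NormalWord (NormalWord.transversal_nonempty φ hφ).some :=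
  g • NormalWord.empty

/-- index of the first letter -/
noncomputable def fl (hφ : ∀ i, Function.Injective (φ i)) (g : PushoutI φ) : Option ι :=
  (nw hφ g).fstIdx

/-- number of letters -/
noncomputable def len (hφ : ∀ i, Function.Injective (φ i)) (g : PushoutI φ) : ℕ :=
  (nw hφ g).toList.length

variable (hφ : ∀ i, Function.Injective (φ i))

theorem fl_base_mul (h : H) (g : PushoutI φ) : fl hφ (base φ h * g) = fl hφ g := by
  classical
  unfold fl nw
  rw [mul_smul, NormalWord.base_smul_def]

theorem len_base_mul (h : H) (g : PushoutI φ) : len hφ (base φ h * g) = len hφ g := by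
  classical
  unfold len nw
  rw [mul_smul, NormalWord.base_smul_def]

theorem fl_one : fl hφ (1 : PushoutI φ) = none := by
  classical
  unfold fl nw
  rw [one_smul]; rfl

theorem len_one : len hφ (1 : PushoutI φ) = 0 := by
  classical
  unfold len nw
  rw [one_smul]; rfl

theorem fl_base (h : H) : fl hφ (base φ h) = none := by
  have := fl_base_mul hφ h 1
  rwa [mul_one, fl_one] at this

theorem len_base (h : H) : len hφ (base φ h) = 0 := by
  have := len_base_mul hφ h 1
  rwa [mul_one, len_one] at this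

theorem fl_of_mul {i : ι} (u : G i) (hu : u ∉ (φ i).range) (g : PushoutI φ)
    (hg : fl hφ g ≠ some i) : fl hφ (of i u * g) = some i := by
  classical
  unfold fl nw at *
  rw [mul_smul, ← NormalWord.cons_eq_smul u _ hg hu]
  rfl

theorem len_of_mul {i : ι} (u : G i) (hu : u ∉ (φ i).range) (g : PushoutI φ)
    (hg : fl hφ g ≠ some i) : len hφ (of i u * g) = len hφ g + 1 := by
  classical
  unfold fl nw at hg
  unfold len nw
  rw [mul_smul, ← NormalWord.cons_eq_smul u _ hg hu]
  rfl

theorem kind {P : PushoutI φ → Prop} (hb : ∀ h, P (base φ h))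
    (hc : ∀ (i : ι) (u : G i) (g : PushoutI φ), u ∉ (φ i).range → fl hφ g ≠ some i → P g →
      P (of i u * g)) : ∀ g, P g := by
  classical
  have key : ∀ w : NormalWord (NormalWord.transversal_nonempty φ hφ).some,
      ∀ h, P (base φ h * w.prod) := by
    intro w
    induction w using NormalWord.consRecOn with
    | empty => intro h; rw [NormalWord.prod_empty, mul_one]; exact hb h
    | cons i g w hmw hgn hgr hw1 ih =>
      intro h
      rw [NormalWord.prod_cons, ← of_apply_eq_base φ i, ← mul_assoc, ← map_mul]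
      refine hc i _ _ ?_ ?_ (by simpa using ih 1)
      · intro hm
        exact hgr ((Subgroup.mul_mem_cancel_left (φ i).range (MonoidHom.mem_range.2 ⟨h, rfl⟩)).1 hm)
      · unfold fl nw; rw [NormalWord.prod_smul_empty]; exact hmw
    | base h w hw ih =>
      intro h'
      rw [NormalWord.prod_smul, ← mul_assoc, ← map_mul]; exact ih _
  intro g
  have := key (g • .empty) 1
  rwa [NormalWord.prod_smul, NormalWord.prod_empty, map_one, mul_one, one_mul] at this

theorem fl_of_not_mem {m : ι} {v : G m} (hv : v ∉ (φ m).range) :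
    fl hφ (of (φ := φ) m v) = some m := by
  have := fl_of_mul hφ v hv 1 (by rw [fl_one]; simp)
  rwa [mul_one] at this

theorem len_of_not_mem {m : ι} {v : G m} (hv : v ∉ (φ m).range) :
    len hφ (of (φ := φ) m v) = 1 := by
  have := len_of_mul hφ v hv 1 (by rw [fl_one]; simp)
  rwa [mul_one, len_one] at this

theorem fl_of_mem {m : ι} {v : G m} (hv : v ∈ (φ m).range) : fl hφ (of (φ := φ) m v) = none := by
  obtain ⟨h, rfl⟩ := hv
  rw [of_apply_eq_base]; exact fl_base hφ h

theorem len_of_mem {m : ι} {v : G m} (hv : v ∈ (φ m).range) : len hφ (of (φ := φ) m v) = 0 := by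
  obtain ⟨h, rfl⟩ := hv
  rw [of_apply_eq_base]; exact len_base hφ h

theorem fl_of_ne {m i : ι} (v : G m) (hmi : m ≠ i) : fl hφ (of (φ := φ) m v) ≠ some i := by
  by_cases hv : v ∈ (φ m).range
  · rw [fl_of_mem hφ hv]; simp
  · rw [fl_of_not_mem hφ hv]; simpa using hmi

theorem len_of_le {m : ι} (v : G m) : len hφ (of (φ := φ) m v) ≤ 1 := by
  by_cases hv : v ∈ (φ m).range
  · rw [len_of_mem hφ hv]; simp
  · rw [len_of_not_mem hφ hv]

theorem fl_none {g : PushoutI φ} (h : fl hφ g = none) : ∃ a, g = base φ a := by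
  revert h
  refine kind hφ (P := fun g => fl hφ g = none → ∃ a, g = base φ a) ?_ ?_ g
  · intro a _; exact ⟨a, rfl⟩
  · intro i u g hu hg _ h
    rw [fl_of_mul hφ u hu g hg] at h
    simp at h

theorem len_zero {g : PushoutI φ} (h : len hφ g = 0) : ∃ a, g = base φ a := by
  revert h
  refine kind hφ (P := fun g => len hφ g = 0 → ∃ a, g = base φ a) ?_ ?_ g
  · intro a _; exact ⟨a, rfl⟩
  · intro i u g hu hg _ h
    rw [len_of_mul hφ u hu g hg] at h
    simp at h

theorem fl_some {g : PushoutI φ} {i : ι} (h : fl hφ g = some i) :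
    ∃ (u : G i) (g' : PushoutI φ), u ∉ (φ i).range ∧ fl hφ g' ≠ some i ∧ g = of i u * g' := by
  revert h
  refine kind hφ (P := fun g => fl hφ g = some i →
    ∃ (u : G i) (g' : PushoutI φ), u ∉ (φ i).range ∧ fl hφ g' ≠ some i ∧ g = of i u * g') ?_ ?_ g
  · intro a h; rw [fl_base] at h; simp at h
  · intro j u g hu hg _ h
    rw [fl_of_mul hφ u hu g hg] at h
    obtain rfl : j = i := by simpa using h
    exact ⟨u, g, hu, hg, rfl⟩

/-- every element is a letter of the factor `i` times an element whose first letter is not of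
type `i` -/
theorem decomp (i : ι) (g : PushoutI φ) :
    ∃ (u : G i) (g' : PushoutI φ), fl hφ g' ≠ some i ∧ g = of i u * g' := by
  by_cases h : fl hφ g = some i
  · obtain ⟨u, g', -, h2, h3⟩ := fl_some hφ h
    exact ⟨u, g', h2, h3⟩
  · exact ⟨1, g, h, by simp⟩

theorem fl_of_mul' {i : ι} {u : G i} {g : PushoutI φ} (hu : u ∈ (φ i).range) :
    fl hφ (of i u * g) = fl hφ g := by
  obtain ⟨h, rfl⟩ := hu
  rw [of_apply_eq_base, fl_base_mul]

theorem len_of_mul' {i : ι} {u : G i} {g : PushoutI φ} (hu : u ∈ (φ i).range) :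
    len hφ (of i u * g) = len hφ g := by
  obtain ⟨h, rfl⟩ := hu
  rw [of_apply_eq_base, len_base_mul]

/-- membership in a factor in terms of length and first letter -/
theorem mem_range_iff (i : ι) (g : PushoutI φ) :
    g ∈ (of (φ := φ) i).range ↔ len hφ g = 0 ∨ (len hφ g = 1 ∧ fl hφ g = some i) := by
  constructor
  · rintro ⟨v, rfl⟩
    by_cases hv : v ∈ (φ i).range
    · left; exact len_of_mem hφ hv
    · right; exact ⟨len_of_not_mem hφ hv, fl_of_not_mem hφ hv⟩
  · rintro (h | ⟨h1, h2⟩)
    · obtain ⟨a, rfl⟩ := len_zero hφ h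
      exact ⟨φ i a, of_apply_eq_base φ i a⟩
    · obtain ⟨u, g', hu, hg', rfl⟩ := fl_some hφ h2
      rw [len_of_mul hφ u hu g' hg'] at h1
      obtain ⟨a, rfl⟩ := len_zero hφ (g := g') (by omega)
      exact ⟨u * φ i a, by rw [map_mul, of_apply_eq_base]⟩

theorem base_iff (g : PushoutI φ) : g ∈ (base φ).range ↔ len hφ g = 0 := by
  constructor
  · rintro ⟨a, rfl⟩; exact len_base hφ a
  · intro h; obtain ⟨a, rfl⟩ := len_zero hφ h; exact ⟨a, rfl⟩

include hφ in
theorem mem_two {i j : ι} (hij : i ≠ j) {g : PushoutI φ} (hi : g ∈ (of (φ := φ) i).range)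
    (hj : g ∈ (of (φ := φ) j).range) : g ∈ (base φ).range := by
  rw [mem_range_iff hφ] at hi hj
  rw [base_iff hφ]
  rcases hi with h | ⟨h1, h2⟩
  · exact h
  · rcases hj with h | ⟨h3, h4⟩
    · exact h
    · exfalso; rw [h2] at h4; exact hij (by simpa using h4)

include hφ in
theorem of_mem_base {i : ι} {u : G i} (h : of (φ := φ) i u ∈ (base φ).range) :
    u ∈ (φ i).range := by
  by_contra hu
  rw [base_iff hφ, len_of_not_mem hφ hu] at h
  omega

end Amal

section Approx

variable {ι : Type} {G : ι → Type} {H : Type} [∀ i, Group (G i)] [Group H] {φ : ∀ i, H →* G i}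
  {G' : ℕ → ι → Type} [∀ m i, Group (G' m i)] {φ' : ∀ m i, H →* G' m i}

/-- the map between amalgamated products -/
noncomputable def pmap (π : ∀ m i, G i →* G' m i) (hπ : ∀ m i, (π m i).comp (φ i) = φ' m i)
    (m : ℕ) : PushoutI φ →* PushoutI (φ' m) :=
  lift (fun i => (of i).comp (π m i)) (base (φ' m)) (fun i => by
    rw [MonoidHom.comp_assoc, hπ, of_comp_eq_base])

theorem pmap_of (π : ∀ m i, G i →* G' m i) (hπ : ∀ m i, (π m i).comp (φ i) = φ' m i)
    (m : ℕ) (i : ι) (u : G i) : pmap π hπ m (of i u) = of i (π m i u) := by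
  simp [pmap]

theorem pmap_base (π : ∀ m i, G i →* G' m i) (hπ : ∀ m i, (π m i).comp (φ i) = φ' m i)
    (m : ℕ) (h : H) : pmap π hπ m (base φ h) = base (φ' m) h := by
  simp [pmap]

theorem approx (hφ : ∀ i, Function.Injective (φ i)) (hφ' : ∀ m i, Function.Injective (φ' m i))
    (π : ∀ m i, G i →* G' m i) (hπ : ∀ m i, (π m i).comp (φ i) = φ' m i)
    (h : ∀ i, ∀ u ∉ (φ i).range, ∀ᶠ m in atTop, π m i u ∉ (φ' m i).range) (x : PushoutI φ) :
    ∀ᶠ m in atTop, fl (hφ' m) (pmap π hπ m x) = fl hφ x ∧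
      len (hφ' m) (pmap π hπ m x) = len hφ x := by
  refine kind hφ (P := fun x => ∀ᶠ m in atTop, fl (hφ' m) (pmap π hπ m x) = fl hφ x ∧
      len (hφ' m) (pmap π hπ m x) = len hφ x) ?_ ?_ x
  · intro a
    filter_upwards with m
    rw [pmap_base, fl_base, fl_base, len_base, len_base]
    exact ⟨rfl, rfl⟩
  · intro i u g hu hg ih
    filter_upwards [ih, h i u hu] with m hm hm2
    rw [map_mul, pmap_of, fl_of_mul hφ u hu g hg, len_of_mul hφ u hu g hg,
      fl_of_mul (hφ' m) _ hm2 _ (by rw [hm.1]; exact hg),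
      len_of_mul (hφ' m) _ hm2 _ (by rw [hm.1]; exact hg), hm.2]
    exact ⟨rfl, rfl⟩

end Approx

end Pool.Agent.Q257.Sep
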