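import Pool.Agent.Q257.Sep.TW

set_option autoImplicit false

/-! Brambles in chordal graphs have small covers. -/

namespace Pool.Agent.Q257.Sep

/-- connectedness of a finite set of vertices, by cuts -/
def Conn {V : Type} (adj : V → V → Prop) (B : Finset V) : Prop :=
  B.Nonempty ∧ ∀ C : Finset V, C ⊆ B → C.Nonempty → C ≠ B → ∃ x ∈ C, ∃ y ∈ B, y ∉ C ∧ adj x y

/-- touching sets -/
def Touch {V : Type} (adj : V → V → Prop) (B B' : Finset V) : Prop :=
  ∃ x ∈ B, ∃ y ∈ B', x = y ∨ adj x y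

theorem Conn.neighbour {V : Type} [DecidableEq V] {adj : V → V → Prop} {B : Finset V}
    (h : Conn adj B) {v : V} (hv : v ∈ B) (hne : B ≠ {v}) : ∃ u ∈ B, u ≠ v ∧ adj v u := by
  obtain ⟨x, hx, y, hy, hyC, hxy⟩ := h.2 {v} (Finset.singleton_subset_iff.2 hv) ⟨v, by simp⟩
    hne.symm
  rw [Finset.mem_singleton] at hx hyC
  subst hx
  exact ⟨y, hy, hyC, hxy⟩

theorem Conn.erase {V : Type} [DecidableEq V] {adj : V → V → Prop}
    (hs : ∀ x y, adj x y → adj y x) {B : Finset V} (h : Conn adj B) {v : V} (hv : v ∈ B)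
    (hne : B ≠ {v})
    (hq : ∀ x ∈ B, ∀ y ∈ B, x ≠ v → y ≠ v → x ≠ y → adj v x → adj v y → adj x y) :
    Conn adj (B.erase v) := by
  obtain ⟨u0, hu0, hu0v, -⟩ := h.neighbour hv hne
  refine ⟨⟨u0, Finset.mem_erase.2 ⟨hu0v, hu0⟩⟩, ?_⟩
  intro C hC hCne hCB
  by_contra hcon
  push Not at hcon
  have hCv : v ∉ C := fun h => (Finset.mem_erase.1 (hC h)).1 rfl
  have hCB' : C ⊆ B := hC.trans (Finset.erase_subset _ _)
  have hCB2 : C ≠ B := fun h => hCv (h ▸ hv)
  obtain ⟨x, hx, y, hy, hyC, hxy⟩ := h.2 C hCB' hCne hCB2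
  have hyv : y = v := by
    by_contra hyv
    exact hcon x hx y (Finset.mem_erase.2 ⟨hyv, hy⟩) hyC hxy
  subst hyv
  -- the other side
  set D := (B.erase y) \ C with hD
  have hDne : D.Nonempty := by
    rw [Finset.sdiff_nonempty]
    intro h1
    exact hCB (Finset.Subset.antisymm hC h1)
  have hDB : D ⊆ B := Finset.sdiff_subset.trans (Finset.erase_subset _ _)
  have hDy : y ∉ D := fun h => (Finset.mem_erase.1 (Finset.mem_sdiff.1 h).1).1 rfl
  have hDB2 : D ≠ B := fun h => hDy (h ▸ hy)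
  obtain ⟨x', hx', y', hy', hy'D, hxy'⟩ := h.2 D hDB hDne hDB2
  have hx'm := Finset.mem_sdiff.1 hx'
  by_cases hy'y : y' = y
  · subst hy'y
    have hxne : x ≠ y' := fun h => hCv (h ▸ hx)
    have hx'ne : x' ≠ y' := fun h => hDy (h ▸ hx')
    have hxx' : x ≠ x' := fun h => hx'm.2 (h ▸ hx)
    have h1 := hq x (hCB' hx) x' (hDB hx') hxne hx'ne hxx' (hs _ _ hxy) (hs _ _ hxy')
    exact hcon x hx x' hx'm.1 hx'm.2 h1
  · have hy'C : y' ∈ C := by
      by_contra h1
      exact hy'D (Finset.mem_sdiff.2 ⟨Finset.mem_erase.2 ⟨hy'y, hy'⟩, h1⟩)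
    exact hcon y' hy'C x' hx'm.1 hx'm.2 (hs _ _ hxy')

theorem bramble_cover {V : Type} [DecidableEq V] {adj : V → V → Prop}
    (hs : ∀ x y, adj x y → adj y x) (w : ℕ) : ∀ X : Finset V,
    (∀ Y : Finset V, Y ⊆ X → Y.Nonempty → ∃ v ∈ Y, Simp adj Y w v) →
    ∀ 𝔅 : Set (Finset V), (∀ B ∈ 𝔅, B ⊆ X ∧ Conn adj B) →
      (∀ B ∈ 𝔅, ∀ B' ∈ 𝔅, Touch adj B B') →
      ∃ Z : Finset V, Z ⊆ X ∧ Z.card ≤ w + 1 ∧ ∀ B ∈ 𝔅, ∃ z ∈ B, z ∈ Z := by
  intro X
  induction X using Finset.strongInduction with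
  | H X ih =>
    intro hX 𝔅 hB hT
    rcases X.eq_empty_or_nonempty with rfl | hne
    · refine ⟨∅, Finset.Subset.refl _, by simp, ?_⟩
      intro B hBm
      obtain ⟨h1, h2⟩ := hB B hBm
      obtain ⟨x, hx⟩ := h2.1
      exact absurd (h1 hx) (Finset.notMem_empty x)
    · obtain ⟨v, hv, hq, hcard⟩ := hX X (Finset.Subset.refl _) hne
      by_cases hvB : {v} ∈ 𝔅
      · have hfin : {x | x ∈ X ∧ x ≠ v ∧ adj v x}.Finite :=
          (Finset.finite_toSet X).subset fun x hx => hx.1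
        refine ⟨insert v hfin.toFinset, ?_, ?_, ?_⟩
        · intro x hx
          rw [Finset.mem_insert, Set.Finite.mem_toFinset] at hx
          rcases hx with rfl | hx
          · exact hv
          · exact hx.1
        · refine (Finset.card_insert_le _ _).trans ?_
          rw [← Set.ncard_eq_toFinset_card _ hfin]
          omega
        · intro B hBm
          obtain ⟨x, hx, y, hy, hxy⟩ := hT B hBm {v} hvB
          rw [Finset.mem_singleton] at hy
          subst hy
          refine ⟨x, hx, ?_⟩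
          rw [Finset.mem_insert, Set.Finite.mem_toFinset]
          by_cases hxv : x = y
          · exact Or.inl hxv
          · exact Or.inr ⟨(hB B hBm).1 hx, hxv, hs _ _ (hxy.resolve_left hxv)⟩
      · have hBv : ∀ B ∈ 𝔅, B ≠ {v} := fun B hBm h => hvB (h ▸ hBm)
        have hN : ∀ B ∈ 𝔅, v ∈ B → ∃ u ∈ B.erase v, u ∈ X ∧ u ≠ v ∧ adj v u := by
          intro B hBm hvm
          obtain ⟨u, hu, huv, ha⟩ := (hB B hBm).2.neighbour hvm (hBv B hBm)
          exact ⟨u, Finset.mem_erase.2 ⟨huv, hu⟩, (hB B hBm).1 hu, huv, ha⟩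
        have hQ : ∀ x ∈ X, ∀ y ∈ X, x ≠ v → y ≠ v → adj v x → adj v y → x = y ∨ adj x y := by
          intro x hx y hy hxv hyv h1 h2
          by_cases hxy : x = y
          · exact Or.inl hxy
          · exact Or.inr (hq x hx y hy hxv hyv hxy h1 h2)
        obtain ⟨Z, hZ1, hZ2, hZ3⟩ := ih (X.erase v) (Finset.erase_ssubset hv)
          (fun Y hY hYne => hX Y (hY.trans (Finset.erase_subset _ _)) hYne)
          {B' | ∃ B ∈ 𝔅, B' = B.erase v} (by
            rintro B' ⟨B, hBm, rfl⟩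
            refine ⟨Finset.erase_subset_erase _ (hB B hBm).1, ?_⟩
            by_cases hvm : v ∈ B
            · exact (hB B hBm).2.erase hs hvm (hBv B hBm)
                (fun x hx y hy => hq x ((hB B hBm).1 hx) y ((hB B hBm).1 hy))
            · rw [Finset.erase_eq_of_notMem hvm]
              exact (hB B hBm).2) (by
            rintro B1 ⟨B, hBm, rfl⟩ B2 ⟨B', hBm', rfl⟩
            obtain ⟨x, hx, y, hy, hxy⟩ := hT B hBm B' hBm'
            by_cases hxv : x = v
            · obtain ⟨u, hu, huX, huv, hau⟩ := hN B hBm (hxv ▸ hx)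
              by_cases hyv : y = v
              · obtain ⟨u', hu', hu'X, hu'v, hau'⟩ := hN B' hBm' (hyv ▸ hy)
                exact ⟨u, hu, u', hu', hQ u huX u' hu'X huv hu'v hau hau'⟩
              · have h1 : adj v y := by
                  rcases hxy with h | h
                  · exact absurd (h.symm.trans hxv) hyv
                  · exact hxv ▸ h
                exact ⟨u, hu, y, Finset.mem_erase.2 ⟨hyv, hy⟩,
                  hQ u huX y ((hB B' hBm').1 hy) huv hyv hau h1⟩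
            · by_cases hyv : y = v
              · obtain ⟨u', hu', hu'X, hu'v, hau'⟩ := hN B' hBm' (hyv ▸ hy)
                have h1 : adj v x := by
                  rcases hxy with h | h
                  · exact absurd (h.trans hyv) hxv
                  · exact hs _ _ (hyv ▸ h)
                exact ⟨x, Finset.mem_erase.2 ⟨hxv, hx⟩, u', hu',
                  hQ x ((hB B hBm).1 hx) u' hu'X hxv hu'v h1 hau'⟩
              · exact ⟨x, Finset.mem_erase.2 ⟨hxv, hx⟩, y, Finset.mem_erase.2 ⟨hyv, hy⟩, hxy⟩)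
        refine ⟨Z, hZ1.trans (Finset.erase_subset _ _), hZ2, ?_⟩
        intro B hBm
        obtain ⟨z, hz, hzZ⟩ := hZ3 _ ⟨B, hBm, rfl⟩
        exact ⟨z, Finset.mem_of_mem_erase hz, hzZ⟩

end Pool.Agent.Q257.Sep
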