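import Pool.Agent.Q257.Sep.Brm

set_option autoImplicit false

/-! Cayley graphs, separation profiles, and limits of groups. -/

namespace Pool.Agent.Q257.Sep

open Filter
open scoped Pointwise

/-- Cayley graph of `G` with respect to `S` -/
def cayley (G : Type) [Group G] (S : Set G) : SimpleGraph G :=
  SimpleGraph.fromRel (fun x y => x * y⁻¹ ∈ S)

/-- least size of a set `S` of vertices of the finite graph `Λ` such that every connected component
of `Λ - S` has at most half of the vertices of `Λ` -/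
noncomputable def cut {V : Type} {Γ : SimpleGraph V} (Λ : Γ.Subgraph) : ℕ :=
  sInf {k | ∃ S : Set V, S ⊆ Λ.verts ∧ S.ncard = k ∧
    ∀ c : (Λ.deleteVerts S).coe.ConnectedComponent, 2 * c.supp.ncard ≤ Λ.verts.ncard}

/-- separation profile -/
noncomputable def sep {V : Type} (Γ : SimpleGraph V) (n : ℕ) : ℕ :=
  sSup {k | ∃ Λ : Γ.Subgraph, Λ.verts.Finite ∧ Λ.verts.ncard ≤ n ∧ k = cut Λ}

theorem conn_reach {V : Type} {adj : V → V → Prop} {B : Finset V} (h : Conn adj B) {x : V}
    (hx : x ∈ B) : ∀ y ∈ B, Relation.ReflTransGen adj x y := by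
  classical
  by_contra hcon
  push Not at hcon
  obtain ⟨y, hy, hxy⟩ := hcon
  obtain ⟨a, ha, b, hb, hbC, hab⟩ := h.2 (B.filter (fun z => Relation.ReflTransGen adj x z))
    (Finset.filter_subset _ _) ⟨x, Finset.mem_filter.2 ⟨hx, Relation.ReflTransGen.refl⟩⟩
    (fun h => hxy (by rw [← h] at hy; exact (Finset.mem_filter.1 hy).2))
  exact hbC (Finset.mem_filter.2 ⟨hb, ((Finset.mem_filter.1 ha).2).tail hab⟩)

theorem cross {W : Type} (H : SimpleGraph W) (P : W → Prop) {u v : W} (p : H.Walk u v)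
    (hu : P u) (hv : ¬ P v) : ∃ a b, H.Adj a b ∧ P a ∧ ¬ P b ∧ H.Reachable u a := by
  induction p with
  | nil => exact absurd hu hv
  | @cons u w v h p ih =>
    by_cases hw : P w
    · obtain ⟨a, b, h1, h2, h3, h4⟩ := ih hw hv
      exact ⟨a, b, h1, h2, h3, h.reachable.trans h4⟩
    · exact ⟨u, w, h, hu, hw, SimpleGraph.Reachable.refl _⟩

/-- a set meeting all large connected sets is a separator -/
theorem cut_le_of_cover {V : Type} {Γ : SimpleGraph V} (Λ : Γ.Subgraph)
    (hfin : Λ.verts.Finite) (Z : Finset V) (hZ : (Z : Set V) ⊆ Λ.verts)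
    (h : ∀ B : Finset V, (B : Set V) ⊆ Λ.verts → Conn Λ.Adj B → Λ.verts.ncard < 2 * B.card →
      ∃ z ∈ B, z ∈ Z) : cut Λ ≤ Z.card := by
  classical
  apply Nat.sInf_le
  refine ⟨(Z : Set V), hZ, Set.ncard_coe_finset Z, ?_⟩
  intro c
  by_contra hcon
  push Not at hcon
  have hvfin : (Λ.deleteVerts (Z : Set V)).verts.Finite := by
    rw [SimpleGraph.Subgraph.deleteVerts_verts]
    exact hfin.subset Set.sdiff_subset
  have hsub : Finite (Λ.deleteVerts (Z : Set V)).verts := hvfin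
  have hcfin : (Subtype.val '' c.supp).Finite := Set.toFinite _
  have hmem : ∀ x, x ∈ hcfin.toFinset ↔ ∃ hx : x ∈ (Λ.deleteVerts (Z : Set V)).verts,
      (⟨x, hx⟩ : (Λ.deleteVerts (Z : Set V)).verts) ∈ c.supp := by
    intro x
    rw [Set.Finite.mem_toFinset]
    constructor
    · rintro ⟨⟨y, hy⟩, hc, rfl⟩; exact ⟨hy, hc⟩
    · rintro ⟨hx, hc⟩; exact ⟨⟨x, hx⟩, hc, rfl⟩
  have hcard : hcfin.toFinset.card = c.supp.ncard := by
    rw [← Set.ncard_eq_toFinset_card _ hcfin, Set.ncard_image_of_injective _ Subtype.coe_injective]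
  obtain ⟨z, hz, hzZ⟩ := h hcfin.toFinset (by
      intro x hx
      obtain ⟨hx1, -⟩ := (hmem x).1 hx
      rw [SimpleGraph.Subgraph.deleteVerts_verts] at hx1
      exact hx1.1) (by
      constructor
      · obtain ⟨⟨y, hy⟩, hc⟩ := c.nonempty_supp
        exact ⟨y, (hmem y).2 ⟨hy, hc⟩⟩
      · intro C hC hCne hCB
        obtain ⟨x, hx⟩ := hCne
        have hy : ∃ y ∈ hcfin.toFinset, y ∉ C := by
          by_contra hcon2
          push Not at hcon2
          exact hCB (Finset.Subset.antisymm hC hcon2)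
        obtain ⟨y, hy, hyC⟩ := hy
        obtain ⟨hxv, hxc⟩ := (hmem x).1 (hC hx)
        obtain ⟨hyv, hyc⟩ := (hmem y).1 hy
        have hr : (Λ.deleteVerts (Z : Set V)).coe.Reachable ⟨x, hxv⟩ ⟨y, hyv⟩ := by
          rw [SimpleGraph.ConnectedComponent.mem_supp_iff] at hxc hyc
          exact SimpleGraph.ConnectedComponent.exact (hxc.trans hyc.symm)
        obtain ⟨p⟩ := hr
        obtain ⟨a, b, h1, h2, h3, h4⟩ := cross _
          (fun u : (Λ.deleteVerts (Z : Set V)).verts => (u : V) ∈ C) p hx hyC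
        have hac : a ∈ c.supp := by
          rw [SimpleGraph.ConnectedComponent.mem_supp_iff] at hxc ⊢
          rw [← hxc]
          exact SimpleGraph.ConnectedComponent.sound h4.symm
        have hbc : b ∈ c.supp := by
          rw [SimpleGraph.ConnectedComponent.mem_supp_iff] at hac ⊢
          rw [← hac]
          exact SimpleGraph.ConnectedComponent.sound h1.symm.reachable
        refine ⟨a, h2, b, (hmem _).2 ⟨b.2, hbc⟩, h3, ?_⟩
        have h5 : (Λ.deleteVerts (Z : Set V)).Adj a b := h1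
        rw [SimpleGraph.Subgraph.deleteVerts_adj] at h5
        exact h5.2.2.2.2) (by rw [hcard]; exact hcon)
  obtain ⟨hz1, -⟩ := (hmem z).1 hz
  rw [SimpleGraph.Subgraph.deleteVerts_verts] at hz1
  exact hz1.2 hzZ

section Cayley

variable {G : Type} [Group G] {S : Set G}

theorem walk_mem (hinv : ∀ s ∈ S, s⁻¹ ∈ S) {x y : G}
    (p : (cayley G S).Walk x y) : x * y⁻¹ ∈ S ^ p.length := by
  induction p with
  | nil => simp
  | @cons u v w h p ih =>
    rw [SimpleGraph.Walk.length_cons, pow_succ']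
    have h2 : u * v⁻¹ ∈ S := by
      obtain ⟨-, h3 | h3⟩ := h
      · exact h3
      · have := hinv _ h3
        simpa using this
    exact ⟨u * v⁻¹, h2, v * w⁻¹, ih, by group⟩

theorem exists_walk {x y : G} (r : ℕ) (h : x * y⁻¹ ∈ S ^ r) :
    ∃ p : (cayley G S).Walk x y, p.length ≤ r := by
  induction r generalizing x with
  | zero =>
    rw [pow_zero, Set.mem_one, mul_inv_eq_one] at h
    subst h
    exact ⟨SimpleGraph.Walk.nil, le_rfl⟩
  | succ r ih =>
    rw [pow_succ'] at h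
    obtain ⟨s, hs, z, hz, hsz⟩ := h
    have hx : x = s * (z * y) := by
      have : s * z = x * y⁻¹ := hsz
      rw [← mul_assoc, this]; group
    obtain ⟨p, hp⟩ := ih (x := z * y) (by simpa using hz)
    by_cases he : x = z * y
    · subst he
      exact ⟨p, hp.trans (Nat.le_succ r)⟩
    · have h1 : x * (z * y)⁻¹ ∈ S := by
        rw [hx, mul_inv_cancel_right]; exact hs
      have h2 : (cayley G S).Adj x (z * y) := ⟨he, Or.inl h1⟩
      exact ⟨SimpleGraph.Walk.cons h2 p, by rw [SimpleGraph.Walk.length_cons]; omega⟩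

theorem dist_le_of_mem {x y : G} (r : ℕ) (h : x * y⁻¹ ∈ S ^ r) : (cayley G S).dist x y ≤ r := by
  obtain ⟨p, hp⟩ := exists_walk r h
  exact (SimpleGraph.dist_le p).trans hp

theorem pow_mono (h1 : (1 : G) ∈ S) {a b : ℕ} (hab : a ≤ b) : S ^ a ⊆ S ^ b :=
  Set.pow_subset_pow_right h1 hab

theorem inv_pow_mem (hinv : ∀ s ∈ S, s⁻¹ ∈ S) : ∀ (r : ℕ), ∀ x ∈ S ^ r, x⁻¹ ∈ S ^ r := by
  intro r
  induction r with
  | zero => intro x hx; rw [pow_zero, Set.mem_one] at hx; simp [hx]
  | succ r ih =>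
    intro x hx
    rw [pow_succ'] at hx
    obtain ⟨s, hs, z, hz, rfl⟩ := hx
    rw [pow_succ]
    exact ⟨z⁻¹, ih z hz, s⁻¹, hinv s hs, by simp⟩

theorem exists_pow_of_closure (hinv : ∀ s ∈ S, s⁻¹ ∈ S)
    (hcl : Subgroup.closure S = ⊤) (x : G) : ∃ r, x ∈ S ^ r := by
  have hx : x ∈ Subgroup.closure S := by rw [hcl]; trivial
  induction hx using Subgroup.closure_induction with
  | mem s hs => exact ⟨1, by rwa [pow_one]⟩
  | one => exact ⟨0, by simp⟩
  | mul a b _ _ ha hb =>
    obtain ⟨r, hr⟩ := ha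
    obtain ⟨t, ht⟩ := hb
    exact ⟨r + t, by rw [pow_add]; exact ⟨a, hr, b, ht, rfl⟩⟩
  | inv a _ ha =>
    obtain ⟨r, hr⟩ := ha
    exact ⟨r, inv_pow_mem hinv r a hr⟩

theorem cayley_connected (hinv : ∀ s ∈ S, s⁻¹ ∈ S)
    (hcl : Subgroup.closure S = ⊤) : (cayley G S).Connected := by
  have : Nonempty G := ⟨1⟩
  refine ⟨fun x y => ?_⟩
  obtain ⟨r, hr⟩ := exists_pow_of_closure hinv hcl (x * y⁻¹)
  obtain ⟨p, -⟩ := exists_walk r hr
  exact ⟨p⟩

/-- right multiplications are automorphisms -/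
def rightMul (g : G) : cayley G S ≃g cayley G S where
  toEquiv := Equiv.mulRight g
  map_rel_iff' := by
    intro a b
    simp [cayley]

theorem cayley_locallyFinite (hS : S.Finite) (x : G) : ((cayley G S).neighborSet x).Finite := by
  have h : (cayley G S).neighborSet x ⊆ (fun s => s⁻¹ * x) '' S ∪ (fun s => s * x) '' S := by
    rintro y ⟨-, h | h⟩
    · left; exact ⟨x * y⁻¹, h, by group⟩
    · right; exact ⟨y * x⁻¹, h, by group⟩
  exact ((hS.image _).union (hS.image _)).subset h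

end Cayley

end Pool.Agent.Q257.Sep
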