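import Pool.Agent.Q257.Sep.TW

set_option autoImplicit false

/-! Tree width of finite dihedral groups with respect to two neighbouring reflections. -/

namespace Pool.Agent.Q257.Sep

theorem TW.fan {W : Type} [Group W] (pos : W → ℕ) (hinj : Function.Injective pos)
    (𝒟 : Set (Subgroup W)) (hcard : ∀ D ∈ 𝒟, Finite D ∧ Nat.card D ≤ 2)
    (hadj : ∀ D ∈ 𝒟, ∀ x y, x ≠ y → x * y⁻¹ ∈ D →
      pos x = 0 ∨ pos y = 0 ∨ pos x = pos y + 1 ∨ pos y = pos x + 1) : TW W 𝒟 2 := by
  classical
  refine ⟨fun x y => x ≠ y ∧ (pos x = 0 ∨ pos y = 0 ∨ pos x = pos y + 1 ∨ pos y = pos x + 1),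
    ?_, ?_, ?_, ?_⟩
  · rintro x y ⟨h1, h2⟩
    exact ⟨h1.symm, by tauto⟩
  · intro D hD
    exact ⟨(hcard D hD).1, (hcard D hD).2.trans (by omega)⟩
  · intro D hD x y hxy hm
    exact ⟨hxy, hadj D hD x y hxy hm⟩
  · intro X K hK hX
    have hKadj : ∀ x ∈ K, ∀ y ∈ K, x ≠ y →
        pos x = 0 ∨ pos y = 0 ∨ pos x = pos y + 1 ∨ pos y = pos x + 1 := by
      rcases hK with rfl | ⟨D, hD, g, rfl⟩
      · intro x hx; exact absurd hx (Set.notMem_empty x)
      · intro x hx y hy hxy
        apply hadj D hD x y hxy
        have h3 := D.mul_mem hx (D.inv_mem hy)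
        simpa [mul_assoc] using h3
    have hKfin : K.Finite ∧ K.ncard ≤ 2 := by
      rcases hK with rfl | ⟨D, hD, g, rfl⟩
      · simp
      · rw [ncard_coset]
        exact ⟨finite_coset D g (hcard D hD).1, (hcard D hD).2⟩
    by_cases ha : ∀ x ∈ X, pos x ≠ 0 → x ∈ K
    · obtain ⟨v, hv, hvK⟩ := hX
      have hv0 : pos v = 0 := by
        by_contra h; exact hvK (ha v hv h)
      have hne : ∀ x ∈ X, x ≠ v → x ∈ K := by
        intro x hx hxv
        apply ha x hx
        intro h
        exact hxv (hinj (h.trans hv0.symm))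
      refine ⟨v, hv, hvK, ?_, ?_⟩
      · intro x hx y hy hxv hyv hxy _ _
        exact ⟨hxy, hKadj x (hne x hx hxv) y (hne y hy hyv) hxy⟩
      · refine le_trans (Set.ncard_le_ncard ?_ hKfin.1) hKfin.2
        rintro x ⟨h1, h2, -⟩
        exact hne x h1 h2
    · push Not at ha
      obtain ⟨x0, hx0, hx00, hx0K⟩ := ha
      have hnonempty : (X.filter (fun x => pos x ≠ 0)).Nonempty :=
        ⟨x0, Finset.mem_filter.2 ⟨hx0, hx00⟩⟩
      obtain ⟨M, hM, hMmax⟩ := Finset.exists_max_image _ pos hnonempty
      obtain ⟨m, hm, hmmin⟩ := Finset.exists_min_image _ pos hnonempty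
      rw [Finset.mem_filter] at hM hm
      have hMmax' : ∀ x ∈ X, pos x ≤ pos M := by
        intro x hx
        by_cases h : pos x = 0
        · omega
        · exact hMmax x (Finset.mem_filter.2 ⟨hx, h⟩)
      have hmmin' : ∀ x ∈ X, pos x ≠ 0 → pos m ≤ pos x := by
        intro x hx h
        exact hmmin x (Finset.mem_filter.2 ⟨hx, h⟩)
      by_cases hMK : M ∉ K
      · have hnb : ∀ x ∈ X, x ≠ M → (pos M = 0 ∨ pos x = 0 ∨ pos M = pos x + 1 ∨
            pos x = pos M + 1) → pos x = 0 ∨ pos x = pos M - 1 := by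
          intro x hx hxM h
          have := hMmax' x hx
          omega
        refine ⟨M, hM.1, hMK, ?_, ?_⟩
        · rintro x hx y hy hxM hyM hxy ⟨-, h1⟩ ⟨-, h2⟩
          refine ⟨hxy, ?_⟩
          rcases hnb x hx hxM h1 with h3 | h3
          · left; exact h3
          · rcases hnb y hy hyM h2 with h4 | h4
            · right; left; exact h4
            · exact absurd (hinj (h3.trans h4.symm)) hxy
        · have h1 : {x | x ∈ X ∧ x ≠ M ∧ (M ≠ x ∧ (pos M = 0 ∨ pos x = 0 ∨ pos M = pos x + 1 ∨
              pos x = pos M + 1))}.ncard ≤ ({0, pos M - 1} : Set ℕ).ncard := by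
            apply Set.ncard_le_ncard_of_injOn pos
            · rintro x ⟨hx, hxM, -, h⟩
              rcases hnb x hx hxM h with h3 | h3
              · left; exact h3
              · right; exact h3
            · intro x _ y _ h; exact hinj h
          exact h1.trans ((Set.ncard_insert_le _ _).trans (by simp))
      · push Not at hMK
        by_cases hmK : m ∉ K
        · have hnb : ∀ x ∈ X, x ≠ m → (pos m = 0 ∨ pos x = 0 ∨ pos m = pos x + 1 ∨
              pos x = pos m + 1) → pos x = 0 ∨ pos x = pos m + 1 := by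
            intro x hx hxm h
            by_cases h0 : pos x = 0
            · left; exact h0
            · have := hmmin' x hx h0
              have := hm.2
              omega
          refine ⟨m, hm.1, hmK, ?_, ?_⟩
          · rintro x hx y hy hxM hyM hxy ⟨-, h1⟩ ⟨-, h2⟩
            refine ⟨hxy, ?_⟩
            rcases hnb x hx hxM h1 with h3 | h3
            · left; exact h3
            · rcases hnb y hy hyM h2 with h4 | h4
              · right; left; exact h4
              · exact absurd (hinj (h3.trans h4.symm)) hxy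
          · have h1 : {x | x ∈ X ∧ x ≠ m ∧ (m ≠ x ∧ (pos m = 0 ∨ pos x = 0 ∨ pos m = pos x + 1 ∨
                pos x = pos m + 1))}.ncard ≤ ({0, pos m + 1} : Set ℕ).ncard := by
              apply Set.ncard_le_ncard_of_injOn pos
              · rintro x ⟨hx, hxM, -, h⟩
                rcases hnb x hx hxM h with h3 | h3
                · left; exact h3
                · right; exact h3
              · intro x _ y _ h; exact hinj h
            exact h1.trans ((Set.ncard_insert_le _ _).trans (by simp))
        · exfalso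
          push Not at hmK
          have h1 := hMmax' x0 hx0
          have h2 := hmmin' x0 hx0 hx00
          have hne : M ≠ m := by
            intro h
            rw [h] at h1
            exact hx0K (by rw [hinj (le_antisymm h1 h2)]; exact hmK)
          have h3 := hKadj M hMK m hmK hne
          have h4 := hM.2
          have h5 := hm.2
          have h6 := hMmax' m hm.1
          have h7 : pos x0 = pos m ∨ pos x0 = pos M := by omega
          rcases h7 with h7 | h7
          · exact hx0K (by rw [hinj h7]; exact hmK)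
          · exact hx0K (by rw [hinj h7]; exact hMK)

open DihedralGroup in
/-- position on the `2q`-cycle -/
def dpos (q : ℕ) : DihedralGroup q → ℕ
  | r j => 2 * j.val
  | sr j => if j = 0 then 2 * q - 1 else 2 * j.val - 1

open DihedralGroup in
theorem dpos_inj (q : ℕ) [NeZero q] : Function.Injective (dpos q) := by
  have hv : ∀ j : ZMod q, j ≠ 0 → 0 < j.val := by
    intro j hj
    rw [Nat.pos_iff_ne_zero]
    intro h
    exact hj ((ZMod.val_eq_zero j).1 h)
  have hlt : ∀ j : ZMod q, j.val < q := fun j => ZMod.val_lt j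
  have hq : 0 < q := Nat.pos_of_ne_zero (NeZero.ne q)
  rintro (i | i) (j | j) h
  · simp only [dpos] at h
    rw [ZMod.val_injective q (show i.val = j.val by omega)]
  · simp only [dpos] at h
    split_ifs at h with h0
    · omega
    · have := hv j h0; omega
  · simp only [dpos] at h
    split_ifs at h with h0
    · omega
    · have := hv i h0; omega
  · simp only [dpos] at h
    split_ifs at h with h0 h1 h1
    · rw [h0, h1]
    · have := hv j h1; have := hlt j; omega
    · have := hv i h0; have := hlt i; omega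
    · have := hv j h1; have := hv i h0
      rw [ZMod.val_injective q (show i.val = j.val by omega)]

open DihedralGroup in
theorem mem_zpowers_sr {q : ℕ} (i : ZMod q) (x : DihedralGroup q) :
    x ∈ Subgroup.zpowers (sr i) ↔ x = 1 ∨ x = sr i := by
  constructor
  · intro h
    obtain ⟨k, rfl⟩ := Subgroup.mem_zpowers_iff.1 h
    have h2 : (sr i : DihedralGroup q) ^ (2 : ℤ) = 1 := by
      rw [zpow_ofNat, pow_two, sr_mul_self]
    rcases Int.even_or_odd' k with ⟨m, rfl | rfl⟩
    · left; rw [zpow_mul, h2, one_zpow]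
    · right; rw [zpow_add, zpow_mul, h2, one_zpow, one_mul, zpow_one]
  · rintro (rfl | rfl)
    · exact Subgroup.one_mem _
    · exact Subgroup.mem_zpowers _

open DihedralGroup in
theorem tw_dihedral (q : ℕ) [NeZero q] :
    TW (DihedralGroup q) {Subgroup.zpowers (sr 0), Subgroup.zpowers (sr 1)} 2 := by
  have hv : ∀ j : ZMod q, j ≠ 0 → 0 < j.val := by
    intro j hj
    rw [Nat.pos_iff_ne_zero]
    intro h
    exact hj ((ZMod.val_eq_zero j).1 h)
  have hlt : ∀ j : ZMod q, j.val < q := fun j => ZMod.val_lt j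
  have hq : 0 < q := Nat.pos_of_ne_zero (NeZero.ne q)
  have hsucc : ∀ j : ZMod q, (j + 1 = 0 ∧ j.val = q - 1) ∨ (j + 1 ≠ 0 ∧ (j + 1).val = j.val + 1) := by
    intro j
    have h1 : ((j.val + 1 : ℕ) : ZMod q) = j + 1 := by
      push_cast
      rw [ZMod.natCast_zmod_val]
    by_cases h : j.val + 1 < q
    · right
      have h2 : (j + 1).val = j.val + 1 := by
        rw [← h1, ZMod.val_natCast_of_lt h]
      refine ⟨?_, h2⟩
      intro h3
      rw [h3, ZMod.val_zero] at h2
      omega
    · left
      have h2 := hlt j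
      have h3 : j.val + 1 = q := by omega
      refine ⟨?_, by omega⟩
      rw [← h1, h3, ZMod.natCast_self]
  have hadj0 : ∀ y : DihedralGroup q, dpos q (sr 0 * y) = 0 ∨ dpos q y = 0 ∨
      dpos q (sr 0 * y) = dpos q y + 1 ∨ dpos q y = dpos q (sr 0 * y) + 1 := by
    rintro (j | j)
    · rw [sr_mul_r, zero_add]
      simp only [dpos]
      split_ifs with h
      · right; left; rw [h, ZMod.val_zero]
      · have := hv j h; omega
    · rw [sr_mul_sr, sub_zero]
      simp only [dpos]
      split_ifs with h
      · left; rw [h, ZMod.val_zero]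
      · have := hv j h; omega
  have hadj1 : ∀ y : DihedralGroup q, dpos q (sr 1 * y) = 0 ∨ dpos q y = 0 ∨
      dpos q (sr 1 * y) = dpos q y + 1 ∨ dpos q y = dpos q (sr 1 * y) + 1 := by
    rintro (j | j)
    · rw [sr_mul_r, add_comm]
      simp only [dpos]
      rcases hsucc j with ⟨h1, h2⟩ | ⟨h1, h2⟩
      · rw [if_pos h1]; omega
      · rw [if_neg h1, h2]; omega
    · rw [sr_mul_sr]
      obtain ⟨i, rfl⟩ : ∃ i, j = i + 1 := ⟨j - 1, by ring⟩
      rw [add_sub_cancel_right]
      simp only [dpos]
      rcases hsucc i with ⟨h1, h2⟩ | ⟨h1, h2⟩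
      · rw [if_pos h1]; omega
      · rw [if_neg h1, h2]; omega
  have hgen : ∀ D ∈ ({Subgroup.zpowers (sr 0), Subgroup.zpowers (sr 1)} :
      Set (Subgroup (DihedralGroup q))), (∃ i : ZMod q, D = Subgroup.zpowers (sr i)) ∧
      ∀ y x, x ≠ y → x * y⁻¹ ∈ D → dpos q x = 0 ∨ dpos q y = 0 ∨
      dpos q x = dpos q y + 1 ∨ dpos q y = dpos q x + 1 := by
    rintro D (rfl | rfl)
    · refine ⟨⟨0, rfl⟩, ?_⟩
      intro y x hxy hm
      rw [mem_zpowers_sr] at hm
      rcases hm with hm | hm
      · exact absurd (mul_inv_eq_one.1 hm) hxy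
      · rw [mul_inv_eq_iff_eq_mul] at hm
        rw [hm]; exact hadj0 y
    · refine ⟨⟨1, rfl⟩, ?_⟩
      intro y x hxy hm
      rw [mem_zpowers_sr] at hm
      rcases hm with hm | hm
      · exact absurd (mul_inv_eq_one.1 hm) hxy
      · rw [mul_inv_eq_iff_eq_mul] at hm
        rw [hm]; exact hadj1 y
  apply TW.fan (dpos q) (dpos_inj q)
  · intro D hD
    obtain ⟨⟨i, rfl⟩, -⟩ := hgen D hD
    refine ⟨inferInstance, ?_⟩
    have h1 : ((Subgroup.zpowers (sr i) : Subgroup (DihedralGroup q)) : Set (DihedralGroup q)) ⊆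
        {1, sr i} := by
      intro x hx
      exact (mem_zpowers_sr i x).1 hx
    have h2 := Set.ncard_le_ncard h1 (Set.toFinite _)
    exact h2.trans ((Set.ncard_insert_le _ _).trans (by simp))
  · intro D hD x y hxy hm
    exact (hgen D hD).2 y x hxy hm

end Pool.Agent.Q257.Sep
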