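import Pool.Agent.Q257.Sep.Lim

set_option autoImplicit false

/-! The limit is not hyperbolic: long isometric cycles. -/

namespace Pool.Agent.Q257.Sep

open Filter
open scoped Pointwise

/-- a walk is geodesic if its length is the distance of its ends -/
def IsGeod {V : Type} {Γ : SimpleGraph V} {x y : V} (p : Γ.Walk x y) : Prop :=
  p.length = Γ.dist x y

/-- Gromov hyperbolicity: geodesic triangles are `δ`-slim -/
def Hyperbolic {V : Type} (Γ : SimpleGraph V) : Prop :=
  ∃ δ : ℝ, 0 ≤ δ ∧ ∀ (x y z : V) (p : Γ.Walk x y) (q : Γ.Walk y z) (r : Γ.Walk z x),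
    IsGeod p → IsGeod q → IsGeod r →
      ∀ v ∈ p.support, ∃ u, (u ∈ q.support ∨ u ∈ r.support) ∧ (Γ.dist v u : ℝ) ≤ δ

theorem exists_suffix {Γ : Type} [Group Γ] {S : Set Γ} : ∀ (l : ℕ), ∀ x ∈ S ^ l,
    ∃ q : ℕ → Γ, q 0 = x ∧ q l = 1 ∧ ∀ i < l, q i * (q (i + 1))⁻¹ ∈ S := by
  intro l
  induction l with
  | zero =>
    intro x hx
    rw [pow_zero, Set.mem_one] at hx
    exact ⟨fun _ => 1, hx.symm, rfl, fun i hi => by omega⟩
  | succ l ih =>
    intro x hx
    rw [pow_succ'] at hx
    obtain ⟨s, hs, z, hz, rfl⟩ := hx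
    obtain ⟨q, hq0, hql, hq⟩ := ih z hz
    refine ⟨fun i => Nat.casesOn i (s * z) q, rfl, hql, ?_⟩
    intro i hi
    rcases i with _ | i
    · change s * z * (q 0)⁻¹ ∈ S
      rw [hq0, mul_inv_cancel_right]; exact hs
    · exact hq i (by omega)

/-- walks along a sequence of vertices -/
theorem walk_along {V : Type} {Γ : SimpleGraph V} (p : ℕ → V) (l : ℕ)
    (hadj : ∀ i < l, Γ.Adj (p i) (p (i + 1))) (i : ℕ) : ∀ n, i + n ≤ l →
    ∃ w : Γ.Walk (p i) (p (i + n)), w.length = n ∧
      (∀ v ∈ w.support, ∃ t, i ≤ t ∧ t ≤ i + n ∧ v = p t) ∧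
      ∀ t, i ≤ t → t ≤ i + n → p t ∈ w.support := by
  intro n
  induction n with
  | zero =>
    intro _
    refine ⟨SimpleGraph.Walk.nil, rfl, ?_, ?_⟩
    · intro v hv
      rw [SimpleGraph.Walk.support_nil, List.mem_singleton] at hv
      exact ⟨i, le_rfl, by omega, hv⟩
    · intro t h1 h2
      have : t = i := by omega
      subst this
      exact SimpleGraph.Walk.start_mem_support _
  | succ n ih =>
    intro hn
    obtain ⟨w, h1, h2, h3⟩ := ih (by omega)
    have ha : Γ.Adj (p (i + n)) (p (i + (n + 1))) := hadj (i + n) (by omega)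
    refine ⟨w.concat ha, ?_, ?_, ?_⟩
    · rw [SimpleGraph.Walk.length_concat, h1]
    · intro v hv
      rw [SimpleGraph.Walk.support_concat, List.mem_append,
        List.mem_singleton] at hv
      rcases hv with hv | hv
      · obtain ⟨t, ht1, ht2, ht3⟩ := h2 v hv
        exact ⟨t, ht1, by omega, ht3⟩
      · exact ⟨i + (n + 1), by omega, le_rfl, hv⟩
    · intro t ht1 ht2
      rw [SimpleGraph.Walk.support_concat, List.mem_append,
        List.mem_singleton]
      by_cases h : t ≤ i + n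
      · exact Or.inl (h3 t ht1 h)
      · right
        rw [show t = i + (n + 1) by omega]

variable {Γ : Type} [Group Γ] {S : Set Γ} {H : ℕ → Type} [∀ k, Group (H k)]
    {Φ : ∀ k, Γ →* H k} {R : ℕ → ℕ} (hC : Conv Γ S H Φ R)

include hC

theorem Conv.not_hyperbolic {G : Type} [Group G] (π : Γ →* G) (hsurj : Function.Surjective π)
    (hπ : ∀ x, π x = 1 ↔ x ∈ hC.N) : ¬ Hyperbolic (cayley G (π '' S)) := by
  classical
  rintro ⟨δ, hδ0, hδ⟩
  have hinv' : ∀ s ∈ π '' S, s⁻¹ ∈ π '' S := by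
    rintro _ ⟨s, hs, rfl⟩; exact ⟨s⁻¹, hC.inv s hs, map_inv _ _⟩
  have h1S : (1 : G) ∈ π '' S := ⟨1, hC.one, map_one _⟩
  have hcl' : Subgroup.closure (π '' S) = ⊤ := by
    rw [← MonoidHom.map_closure, hC.cl, ← MonoidHom.range_eq_map, MonoidHom.range_eq_top]
    exact hsurj
  have hconn := cayley_connected hinv' hcl'
  set D := ⌈δ⌉₊ with hD
  have hδD : δ ≤ D := Nat.le_ceil δ
  set k := 12 * (D + 2) with hk
  have hex : ∃ l, ∃ x ∈ S ^ l, Φ k x ≠ 1 ∧ x ∈ hC.N := by
    obtain ⟨x, hx1, hx2⟩ := hC.proper k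
    obtain ⟨r, hr⟩ := exists_pow_of_closure hC.inv hC.cl x
    exact ⟨r, x, hr, hx1, ⟨k + 1, hx2⟩⟩
  obtain ⟨x, hxl, hxk, hxN⟩ := Nat.find_spec hex
  set l := Nat.find hex with hl
  have hmin : ∀ j < l, ∀ y ∈ S ^ j, π y = 1 → Φ k y = 1 := by
    intro j hj y hy hπy
    by_contra hne
    exact Nat.find_min hex hj ⟨y, hy, hne, (hπ y).1 hπy⟩
  have hlk : k < l := by
    by_contra hcon
    push Not at hcon
    have h1 : k + 1 ≤ R (k + 1) := hC.mono.le_apply
    exact hxk (hC.ball (k := k) (by omega) hxl hxN)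
  obtain ⟨q, hq0, hql, hq⟩ := exists_suffix l x hxl
  have hqij : ∀ i n, i + n ≤ l → q i * (q (i + n))⁻¹ ∈ S ^ n := by
    intro i n
    induction n with
    | zero => intro _; simp
    | succ n ih =>
      intro hn
      rw [pow_succ]
      exact ⟨_, ih (by omega), _, hq (i + n) (by omega), by
        change q i * (q (i + n))⁻¹ * (q (i + n) * (q (i + n + 1))⁻¹) = _
        rw [show i + (n + 1) = i + n + 1 by ring]; group⟩
  let p : ℕ → G := fun i => π (q i)
  have hp0 : p 0 = 1 := by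
    change π (q 0) = 1
    rw [hq0]; exact (hπ x).2 hxN
  have hpl : p l = 1 := by
    change π (q l) = 1
    rw [hql, map_one]
  have hdle : ∀ i n, i + n ≤ l → (cayley G (π '' S)).dist (p i) (p (i + n)) ≤ n := by
    intro i n hn
    apply dist_le_of_mem
    rw [image_pow']
    exact ⟨_, hqij i n hn, by simp [p]⟩
  have hdge : ∀ i n, i + n ≤ l → min n (l - n) ≤ (cayley G (π '' S)).dist (p i) (p (i + n)) := by
    intro i n hn
    by_contra hcon
    push Not at hcon
    obtain ⟨w, hw⟩ := hconn.exists_walk_length_eq_dist (p i) (p (i + n))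
    set d := (cayley G (π '' S)).dist (p i) (p (i + n)) with hd
    have h1 := walk_mem hinv' w
    rw [hw, image_pow'] at h1
    obtain ⟨u, hu, hue⟩ := h1
    have hd1 : d < n := lt_of_lt_of_le hcon (min_le_left _ _)
    have hd2 : d < l - n := lt_of_lt_of_le hcon (min_le_right _ _)
    have hy1 : Φ k (u⁻¹ * (q i * (q (i + n))⁻¹)) = 1 := by
      apply hmin (d + n) (by omega)
      · rw [pow_add]
        exact ⟨_, inv_pow_mem hC.inv d u hu, _, hqij i n hn, rfl⟩
      · rw [map_mul, map_inv, hue, map_mul, map_inv]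
        exact inv_mul_cancel _
    have e1 := hqij 0 i (by omega)
    have e2 := hqij (i + n) (l - (i + n)) (by omega)
    rw [zero_add] at e1
    rw [show i + n + (l - (i + n)) = l by omega] at e2
    have hy2 : Φ k ((q 0 * (q i)⁻¹) * (u * (q (i + n) * (q l)⁻¹))) = 1 := by
      apply hmin (i + (d + (l - (i + n)))) (by omega)
      · rw [pow_add, pow_add]
        exact ⟨_, e1, _, ⟨_, hu, _, e2, rfl⟩, rfl⟩
      · have h0 : π (q 0) = 1 := hp0
        have h0l : π (q l) = 1 := hpl
        simp only [map_mul, map_inv, hue, h0, h0l]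
        change 1 * (p i)⁻¹ * (p i * (p (i + n))⁻¹ * (p (i + n) * 1⁻¹)) = 1
        group
    apply hxk
    have h2 : Φ k u = Φ k (q i * (q (i + n))⁻¹) := by
      rw [map_mul, map_inv, inv_mul_eq_one] at hy1
      exact hy1
    rw [map_mul, map_mul (Φ k) u, h2, ← map_mul, ← map_mul] at hy2
    rw [← hy2, hql, hq0]
    congr 1
    group
  have hadj : ∀ i < l, (cayley G (π '' S)).Adj (p i) (p (i + 1)) := by
    intro i hi
    have h1 := hdge i 1 (by omega)
    refine ⟨?_, Or.inl ?_⟩
    · intro h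
      rw [h, SimpleGraph.dist_self] at h1
      omega
    · exact ⟨q i * (q (i + 1))⁻¹, hq i hi, by simp [p]⟩
  set m := l / 3 with hm
  have hm3 : 3 * m ≤ l := by omega
  have hm3' : l ≤ 3 * m + 2 := by omega
  have hmbig : 4 * (D + 2) ≤ m := by omega
  obtain ⟨w1, hw1, hs1, ht1⟩ := walk_along p l hadj 0 m (by omega)
  obtain ⟨w2, hw2, hs2, -⟩ := walk_along p l hadj m m (by omega)
  obtain ⟨w3, hw3, hs3, -⟩ := walk_along p l hadj (m + m) (l - (m + m)) (by omega)
  have hend : p (m + m + (l - (m + m))) = p 0 := by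
    rw [show m + m + (l - (m + m)) = l by omega, hpl, hp0]
  have hstart : p (0 + m) = p m := by rw [zero_add]
  have hg1 := hdge 0 m (by omega)
  have hg1' := hdle 0 m (by omega)
  have hg2 := hdge m m (by omega)
  have hg2' := hdle m m (by omega)
  have hg3 := hdge (m + m) (l - (m + m)) (by omega)
  have hg3' := hdle (m + m) (l - (m + m)) (by omega)
  have hmin1 : min m (l - m) = m := min_eq_left (by omega)
  have hmin3 : min (l - (m + m)) (l - (l - (m + m))) = l - (m + m) := min_eq_left (by omega)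
  rw [hmin1] at hg1 hg2
  rw [hmin3] at hg3
  have key := hδ (p 0) (p m) (p (m + m)) (w1.copy rfl hstart) w2 (w3.copy rfl hend) (by
      unfold IsGeod
      rw [SimpleGraph.Walk.length_copy, hw1, ← hstart]
      omega) (by
      unfold IsGeod
      rw [hw2]
      omega) (by
      unfold IsGeod
      rw [SimpleGraph.Walk.length_copy, hw3, ← hend]
      omega)
  obtain ⟨u, hu, hdu⟩ := key (p (m / 2)) (by
    rw [SimpleGraph.Walk.support_copy]
    exact ht1 (m / 2) (by omega) (by omega))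
  obtain ⟨t, htm, htl, rfl⟩ : ∃ t, m ≤ t ∧ t ≤ l ∧ u = p t := by
    rcases hu with hu | hu
    · obtain ⟨t, h1, h2, h3⟩ := hs2 u hu
      exact ⟨t, h1, by omega, h3⟩
    · rw [SimpleGraph.Walk.support_copy] at hu
      obtain ⟨t, h1, h2, h3⟩ := hs3 u hu
      exact ⟨t, by omega, by omega, h3⟩
  have h1 := hdge (m / 2) (t - m / 2) (by omega)
  rw [show m / 2 + (t - m / 2) = t by omega] at h1
  have h2 : D + 1 ≤ min (t - m / 2) (l - (t - m / 2)) := by
    apply le_min
    · omega
    · omega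
  have h3 : (D : ℝ) + 1 ≤ (cayley G (π '' S)).dist (p (m / 2)) (p t) := by
    exact_mod_cast h2.trans h1
  linarith

end Pool.Agent.Q257.Sep
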