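import Pool.Agent.Q257.Sep.Dih

set_option autoImplicit false

/-! Finite quotients, close to a cycle, of an amalgamated product of two finite groups over a common
subgroup of index two. -/

namespace Pool.Agent.Q257.Sep

open Monoid Monoid.PushoutI Filter

section

variable {E : Type} [Group E] {G : Bool → Type} [∀ b, Group (G b)] {φ : ∀ b, E →* G b}

theorem exists_finite_rep (hφ : ∀ b, Function.Injective (φ b)) (hidx : ∀ b, (φ b).range.index = 2) :
    ∃ τ : PushoutI φ →* Equiv.Perm (E × Bool), ∀ b, Function.Injective (τ.comp (of b)) := by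
  classical
  have ha : ∀ b, ∃ a : G b, a ∉ (φ b).range := by
    intro b
    by_contra hcon
    push Not at hcon
    have h1 : (φ b).range = ⊤ := (Subgroup.eq_top_iff' _).2 hcon
    have h2 := hidx b
    rw [h1, Subgroup.index_top] at h2
    omega
  choose a ha using ha
  let f : ∀ b, E × Bool → G b := fun b p => φ b p.1 * (if p.2 then a b else 1)
  have hf : ∀ b, Function.Bijective (f b) := by
    intro b
    constructor
    · rintro ⟨e, x⟩ ⟨e', x'⟩ h
      rcases x with _ | _ <;> rcases x' with _ | _
      · simp only [f, Bool.false_eq_true, if_false, mul_one] at h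
        rw [hφ b h]
      · exfalso
        simp only [f, Bool.false_eq_true, if_false, mul_one, if_true] at h
        apply ha b
        refine ⟨e'⁻¹ * e, ?_⟩
        rw [map_mul, h, map_inv]; group
      · exfalso
        simp only [f, Bool.false_eq_true, if_false, mul_one, if_true] at h
        apply ha b
        refine ⟨e⁻¹ * e', ?_⟩
        rw [map_mul, ← h, map_inv]; group
      · simp only [f, if_true] at h
        rw [hφ b (mul_right_cancel h)]
    · intro x
      by_cases hx : x ∈ (φ b).range
      · obtain ⟨e, rfl⟩ := hx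
        exact ⟨(e, false), by simp [f]⟩
      · have h1 : x * (a b)⁻¹ ∈ (φ b).range := by
          rw [Subgroup.mul_mem_iff_of_index_two (hidx b)]
          simp [hx, ha b]
        obtain ⟨e, he⟩ := h1
        exact ⟨(e, true), by simp [f, he]⟩
  let eA : ∀ b, E × Bool ≃ G b := fun b => Equiv.ofBijective (f b) (hf b)
  let rep : ∀ b, G b →* Equiv.Perm (E × Bool) := fun b =>
    (eA b).symm.permCongrHom.toMonoidHom.comp (MulAction.toPermHom (G b) (G b))
  have hrep : ∀ b (g : G b) (p : E × Bool), rep b g p = (eA b).symm (g * eA b p) := by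
    intro b g p; rfl
  have hcomp : ∀ b (e : E) (p : E × Bool), rep b (φ b e) p = (e * p.1, p.2) := by
    intro b e p
    rw [hrep, Equiv.symm_apply_eq]
    change φ b e * (φ b p.1 * _) = φ b (e * p.1) * _
    rw [map_mul, mul_assoc]
  let τ : PushoutI φ →* Equiv.Perm (E × Bool) :=
    PushoutI.lift rep ((rep false).comp (φ false)) (by
      intro b
      ext e p
      · simp only [MonoidHom.comp_apply, hcomp]
      · simp only [MonoidHom.comp_apply, hcomp])
  refine ⟨τ, ?_⟩
  intro b x y hxy
  have h1 : rep b x = rep b y := by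
    have h2 : ∀ z : G b, τ (of b z) = rep b z := fun z => PushoutI.lift_of _ _ _ z
    rw [← h2, ← h2]; exact hxy
  have h3 := Equiv.congr_fun h1 ((eA b).symm 1)
  rw [hrep, hrep] at h3
  simpa using h3

/-- sign homomorphism -/
noncomputable def sgn {L D : Type} [Group L] [Group D] (R : Subgroup L)
    (hR : R.index = 2) (s : D) (hs : s * s = 1) : L →* D := by
  classical
  exact
  { toFun := fun x => if x ∈ R then 1 else s
    map_one' := by simp [one_mem]
    map_mul' := by
      intro x y
      have := Subgroup.mul_mem_iff_of_index_two hR (a := x) (b := y)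
      by_cases hx : x ∈ R <;> by_cases hy : y ∈ R <;> simp [this, hx, hy, hs] }

theorem sgn_mem {L D : Type} [Group L] [Group D] (R : Subgroup L)
    (hR : R.index = 2) (s : D) (hs : s * s = 1) {x : L} (hx : x ∈ R) :
    sgn R hR s hs x = 1 := by
  simp [sgn, hx]

theorem sgn_not_mem {L D : Type} [Group L] [Group D] (R : Subgroup L)
    (hR : R.index = 2) (s : D) (hs : s * s = 1) {x : L} (hx : x ∉ R) :
    sgn R hR s hs x = s := by
  simp [sgn, hx]

/-- the two reflections -/
def refl2 (n : ℕ) (b : Bool) : DihedralGroup n := DihedralGroup.sr (if b then 1 else 0)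

theorem refl2_mul (n : ℕ) (b : Bool) : refl2 n b * refl2 n b = 1 := by
  unfold refl2; rw [DihedralGroup.sr_mul_self]

/-- the map to the dihedral group -/
noncomputable def dlt (hidx : ∀ b, (φ b).range.index = 2) (n : ℕ) : PushoutI φ →* DihedralGroup n :=
  PushoutI.lift (fun b => sgn (φ b).range (hidx b) (refl2 n b) (refl2_mul n b)) 1 (by
    intro b
    ext e
    simp only [MonoidHom.comp_apply, MonoidHom.one_apply]
    exact sgn_mem _ _ _ _ ⟨e, rfl⟩)

theorem dlt_of_mem (hidx : ∀ b, (φ b).range.index = 2) (n : ℕ) {b : Bool} {x : G b}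
    (hx : x ∈ (φ b).range) : dlt hidx n (of b x) = 1 := by
  unfold dlt
  rw [PushoutI.lift_of, sgn_mem _ _ _ _ hx]

theorem dlt_of_not_mem (hidx : ∀ b, (φ b).range.index = 2) (n : ℕ) {b : Bool} {x : G b}
    (hx : x ∉ (φ b).range) : dlt hidx n (of b x) = refl2 n b := by
  unfold dlt
  rw [PushoutI.lift_of, sgn_not_mem _ _ _ _ hx]

theorem dlt_base (hidx : ∀ b, (φ b).range.index = 2) (n : ℕ) (e : E) :
    dlt hidx n (base φ e) = 1 := by
  unfold dlt
  rw [PushoutI.lift_base]; rfl

/-- alternating products -/
def alt (n : ℕ) : Bool → ℕ → DihedralGroup n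
  | _, 0 => 1
  | b, k + 1 => refl2 n b * alt n (!b) k

theorem alt_eq (n : ℕ) (k : ℕ) :
    alt n false (2 * k) = DihedralGroup.r (k : ZMod n) ∧
    alt n true (2 * k) = DihedralGroup.r (-(k : ZMod n)) ∧
    alt n false (2 * k + 1) = DihedralGroup.sr (-(k : ZMod n)) ∧
    alt n true (2 * k + 1) = DihedralGroup.sr ((k : ZMod n) + 1) := by
  have hA : ∀ j b, alt n b (j + 1) = refl2 n b * alt n (!b) j := fun j b => rfl
  have hodd : ∀ k : ℕ, alt n false (2 * k) = DihedralGroup.r (k : ZMod n) →
      alt n true (2 * k) = DihedralGroup.r (-(k : ZMod n)) →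
      alt n false (2 * k + 1) = DihedralGroup.sr (-(k : ZMod n)) ∧
      alt n true (2 * k + 1) = DihedralGroup.sr ((k : ZMod n) + 1) := by
    intro k h1 h2
    constructor
    · rw [hA]
      change refl2 n false * alt n true (2 * k) = _
      rw [h2]; simp [refl2, DihedralGroup.sr_mul_r]
    · rw [hA]
      change refl2 n true * alt n false (2 * k) = _
      rw [h1]; simp [refl2, DihedralGroup.sr_mul_r, add_comm]
  induction k with
  | zero =>
    have h1 : alt n false (2 * 0) = DihedralGroup.r ((0 : ℕ) : ZMod n) := by
      change (1 : DihedralGroup n) = _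
      rw [Nat.cast_zero, DihedralGroup.one_def]
    have h2 : alt n true (2 * 0) = DihedralGroup.r (-((0 : ℕ) : ZMod n)) := by
      change (1 : DihedralGroup n) = _
      rw [Nat.cast_zero, neg_zero, DihedralGroup.one_def]
    exact ⟨h1, h2, hodd 0 h1 h2⟩
  | succ k ih =>
    obtain ⟨-, -, h3, h4⟩ := ih
    have h1 : alt n false (2 * (k + 1)) = DihedralGroup.r ((k + 1 : ℕ) : ZMod n) := by
      rw [show 2 * (k + 1) = 2 * k + 1 + 1 by ring, hA]
      change refl2 n false * alt n true (2 * k + 1) = _
      rw [h4]; simp [refl2, DihedralGroup.sr_mul_sr]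
    have h2 : alt n true (2 * (k + 1)) = DihedralGroup.r (-((k + 1 : ℕ) : ZMod n)) := by
      rw [show 2 * (k + 1) = 2 * k + 1 + 1 by ring, hA]
      change refl2 n true * alt n false (2 * k + 1) = _
      rw [h3]; simp only [refl2, if_true, DihedralGroup.sr_mul_sr]
      congr 1; push_cast; ring
    exact ⟨h1, h2, hodd (k + 1) h1 h2⟩

theorem dlt_eq_alt (hφ : ∀ b, Function.Injective (φ b)) (hidx : ∀ b, (φ b).range.index = 2) (n : ℕ)
    (x : PushoutI φ) : (fl hφ x = none → len hφ x = 0 ∧ dlt hidx n x = 1) ∧
      ∀ b, fl hφ x = some b → 0 < len hφ x ∧ dlt hidx n x = alt n b (len hφ x) := by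
  refine kind hφ (P := fun x => (fl hφ x = none → len hφ x = 0 ∧ dlt hidx n x = 1) ∧
      ∀ b, fl hφ x = some b → 0 < len hφ x ∧ dlt hidx n x = alt n b (len hφ x)) ?_ ?_ x
  · intro e
    rw [fl_base, len_base, dlt_base]
    simp
  · intro i u g hu hg ih
    rw [fl_of_mul hφ u hu g hg, len_of_mul hφ u hu g hg, map_mul, dlt_of_not_mem hidx n hu]
    refine ⟨by simp, ?_⟩
    intro b hb
    obtain rfl : i = b := by simpa using hb
    refine ⟨by omega, ?_⟩
    rcases h : fl hφ g with _ | j
    · obtain ⟨h1, h2⟩ := ih.1 h
      rw [h1, h2]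
      rfl
    · obtain ⟨-, h2⟩ := ih.2 j h
      have hj : j = !i := by
        rw [h] at hg
        have : j ≠ i := by simpa using hg
        revert this
        cases i <;> cases j <;> simp
      rw [h2, hj]
      rfl

theorem natCast_ne_zero {n k : ℕ} (h1 : 0 < k) (h2 : k < n) : (k : ZMod n) ≠ 0 := by
  intro h
  rw [ZMod.natCast_eq_zero_iff] at h
  exact absurd (Nat.le_of_dvd h1 h) (by omega)

/-- an element outside a factor stays outside in the dihedral group -/
theorem dlt_not_mem (hφ : ∀ b, Function.Injective (φ b)) (hidx : ∀ b, (φ b).range.index = 2)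
    (b : Bool) (x : PushoutI φ) (hx : x ∉ (of (φ := φ) b).range) (n : ℕ) (hn : len hφ x + 1 < n) :
    dlt hidx n x ≠ 1 ∧ dlt hidx n x ≠ refl2 n b := by
  rw [mem_range_iff hφ] at hx
  push Not at hx
  obtain ⟨hx1, hx2⟩ := hx
  have hn1 : (1 : ZMod n) ≠ 0 := by
    have := natCast_ne_zero (n := n) (k := 1) one_pos (by omega)
    simpa using this
  rcases h : fl hφ x with _ | i
  · exact absurd ((dlt_eq_alt hφ hidx n x).1 h).1 hx1
  · obtain ⟨h1, h2⟩ := (dlt_eq_alt hφ hidx n x).2 i h
    rw [h2]
    obtain ⟨k, hk⟩ := Nat.even_or_odd' (len hφ x)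
    obtain ⟨e1, e2, e3, e4⟩ := alt_eq n k
    rcases hk with hk | hk
    · have hk0 : 0 < k := by omega
      have hk1 := natCast_ne_zero (n := n) hk0 (by omega)
      rw [hk]
      cases i
      · rw [e1, DihedralGroup.one_def]
        constructor
        · intro h; injection h with h; exact hk1 h
        · intro h; simp [refl2] at h
      · rw [e2, DihedralGroup.one_def]
        constructor
        · intro h; injection h with h; exact hk1 (neg_eq_zero.1 h)
        · intro h; simp [refl2] at h
    · rw [hk]
      have hk2 := natCast_ne_zero (n := n) (k := k + 1) (by omega) (by omega)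
      push_cast at hk2
      cases i
      · rw [e3]
        refine ⟨(fun h => (by rw [DihedralGroup.one_def] at h; cases h)), ?_⟩
        intro h
        simp only [refl2, DihedralGroup.sr.injEq] at h
        cases b
        · have hk1 : 0 < k := by
            rcases Nat.eq_zero_or_pos k with h0 | h0
            · exfalso; subst h0
              exact hx2 (by omega) (by assumption)
            · exact h0
          have hk3 := natCast_ne_zero (n := n) hk1 (by omega)
          simp only [Bool.false_eq_true, if_false] at h
          exact hk3 (neg_eq_zero.1 h)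
        · simp only [if_true] at h
          apply hk2
          rw [← h]; ring
      · rw [e4]
        refine ⟨(fun h => (by rw [DihedralGroup.one_def] at h; cases h)), ?_⟩
        intro h
        simp only [refl2, DihedralGroup.sr.injEq] at h
        cases b
        · simp only [Bool.false_eq_true, if_false] at h
          exact hk2 h
        · have hk1 : 0 < k := by
            rcases Nat.eq_zero_or_pos k with h0 | h0
            · exfalso; subst h0
              exact hx2 (by omega) (by assumption)
            · exact h0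
          have hk3 := natCast_ne_zero (n := n) hk1 (by omega)
          simp only [if_true] at h
          exact hk3 (by simpa using h)

end

end Pool.Agent.Q257.Sep
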