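import Pool.Agent.Q257.Sep.Ins

set_option autoImplicit false

/-! Finite quotients, close to a cycle, of an amalgamated product of two finite groups over a common
subgroup of index two: the existence theorem. -/

namespace Pool.Agent.Q257.Sep

open Monoid Monoid.PushoutI Filter

/-- reduction of dihedral groups -/
def red (q : ℕ) : DihedralGroup (4 * q) →* DihedralGroup q where
  toFun := fun x => match x with
    | DihedralGroup.r i => DihedralGroup.r (ZMod.castHom (dvd_mul_left q 4) (ZMod q) i)
    | DihedralGroup.sr i => DihedralGroup.sr (ZMod.castHom (dvd_mul_left q 4) (ZMod q) i)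
  map_one' := by
    rw [DihedralGroup.one_def, DihedralGroup.one_def]
    simp
  map_mul' := by
    rintro (i | i) (j | j) <;> simp

theorem red_r (q : ℕ) (i : ZMod (4 * q)) :
    red q (DihedralGroup.r i) = DihedralGroup.r (ZMod.castHom (dvd_mul_left q 4) (ZMod q) i) := rfl

theorem red_sr (q : ℕ) (i : ZMod (4 * q)) :
    red q (DihedralGroup.sr i) = DihedralGroup.sr (ZMod.castHom (dvd_mul_left q 4) (ZMod q) i) := rfl

section

variable {E : Type} [Group E] {G : Bool → Type} [∀ b, Group (G b)] {φ : ∀ b, E →* G b}

theorem exists_insert [Finite E] [∀ b, Finite (G b)] (hφ : ∀ b, Function.Injective (φ b))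
    (hidx : ∀ b, (φ b).range.index = 2) :
    ∃ (κ : ℕ) (V : ℕ → Type) (_ : ∀ m, Group (V m)) (π : ∀ m, PushoutI φ →* V m),
      (∀ m, Finite (V m)) ∧ (∀ m, Function.Surjective (π m)) ∧
      (∀ m b, Function.Injective ((π m).comp (of b))) ∧
      (∀ b, ∀ x ∉ (of (φ := φ) b).range, ∀ᶠ m in atTop, π m x ∉ ((π m).comp (of b)).range) ∧
      (∀ m, ∃ L1 L2 : Subgroup (V m), ((π m).comp (of true)).range ≤ L1 ∧ L1 ≤ L2 ∧
        ((π m).comp (of true)).range.relIndex L1 = 2 ∧ L1.relIndex L2 = 2 ∧
        TW (V m) {((π m).comp (of false)).range, L2} κ) := by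
  classical
  obtain ⟨τ, hτ⟩ := exists_finite_rep hφ hidx
  set M := Nat.card (Equiv.Perm (E × Bool)) with hM
  have hMpos : 0 < M := Nat.card_pos
  let q : ℕ → ℕ := fun m => M * (m + 1)
  have hq : ∀ m, 0 < q m := fun m => Nat.mul_pos hMpos (Nat.succ_pos m)
  let P : ∀ m, PushoutI φ →* Equiv.Perm (E × Bool) × DihedralGroup (4 * q m) :=
    fun m => τ.prod (dlt hidx (4 * q m))
  have hfinD : ∀ m, Finite (DihedralGroup (4 * q m)) := by
    intro m
    have : NeZero (4 * q m) := ⟨by have := hq m; omega⟩
    infer_instance
  let V : ℕ → Type := fun m => ↥(P m).range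
  let π : ∀ m, PushoutI φ →* V m := fun m => (P m).rangeRestrict
  have hval : ∀ m x, ((π m x : (P m).range) : Equiv.Perm (E × Bool) × DihedralGroup (4 * q m)) =
      (τ x, dlt hidx (4 * q m) x) := fun m x => rfl
  have hsurj : ∀ m, Function.Surjective (π m) := fun m => (P m).rangeRestrict_surjective
  refine ⟨4 * M * (2 + 1) - 1, V, fun m => inferInstance, π, ?_, hsurj, ?_, ?_, ?_⟩
  · intro m
    have := hfinD m
    change Finite (P m).range
    infer_instance
  · intro m b x y hxy
    apply hτ b
    have h1 := congrArg (fun z : V m => ((z : (P m).range) :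
      Equiv.Perm (E × Bool) × DihedralGroup (4 * q m)).1) hxy
    exact h1
  · intro b x hx
    filter_upwards [eventually_gt_atTop (len hφ x + 1)] with m hm
    rintro ⟨y, hy⟩
    have h1 : dlt hidx (4 * q m) (of b y) = dlt hidx (4 * q m) x :=
      congrArg (fun z : V m => ((z : (P m).range) :
        Equiv.Perm (E × Bool) × DihedralGroup (4 * q m)).2) hy
    have hn : len hφ x + 1 < 4 * q m := by
      have h2 : 1 * (m + 1) ≤ M * (m + 1) := Nat.mul_le_mul_right _ hMpos
      change len hφ x + 1 < 4 * (M * (m + 1))
      omega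
    obtain ⟨h2, h3⟩ := dlt_not_mem hφ hidx b x hx (4 * q m) hn
    by_cases hyr : y ∈ (φ b).range
    · rw [dlt_of_mem hidx _ hyr] at h1
      exact h2 h1.symm
    · rw [dlt_of_not_mem hidx _ hyr] at h1
      exact h3 h1.symm
  · intro m
    have hqm := hq m
    have hfD := hfinD m
    have hfV : Finite (V m) := by change Finite (P m).range; infer_instance
    have hne : NeZero (q m) := ⟨hqm.ne'⟩
    have ha : ∀ b, ∃ a : G b, a ∉ (φ b).range := by
      intro b
      by_contra hcon
      push Not at hcon
      have h1 : (φ b).range = ⊤ := (Subgroup.eq_top_iff' _).2 hcon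
      have h2 := hidx b
      rw [h1, Subgroup.index_top] at h2
      omega
    obtain ⟨a, ha'⟩ := ha false
    obtain ⟨b, hb'⟩ := ha true
    let t : PushoutI φ := of false a * of true b
    have ht : dlt hidx (4 * q m) t = DihedralGroup.r 1 := by
      simp only [t, map_mul, dlt_of_not_mem hidx _ ha', dlt_of_not_mem hidx _ hb', refl2,
        Bool.false_eq_true, if_false, if_true, DihedralGroup.sr_mul_sr, sub_zero]
    let z : V m := π m (t ^ (q m))
    have hz : (z : Equiv.Perm (E × Bool) × DihedralGroup (4 * q m)) =
        (1, DihedralGroup.r (q m : ZMod (4 * q m))) := by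
      change ((π m (t ^ (q m)) : (P m).range) : Equiv.Perm (E × Bool) × DihedralGroup (4 * q m)) = _
      rw [hval, map_pow, map_pow, ht, DihedralGroup.r_one_pow]
      have h1 : τ t ^ (q m) = 1 := by
        change τ t ^ (M * (m + 1)) = 1
        rw [pow_mul, hM, pow_card_eq_one', one_pow]
      rw [h1]
    have hzpow : ∀ k : ℕ, ((z ^ k : V m) : Equiv.Perm (E × Bool) × DihedralGroup (4 * q m)) =
        (1, DihedralGroup.r ((q m * k : ℕ) : ZMod (4 * q m))) := by
      intro k
      have h1 : ((z ^ k : V m) : Equiv.Perm (E × Bool) × DihedralGroup (4 * q m)) =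
          (z : Equiv.Perm (E × Bool) × DihedralGroup (4 * q m)) ^ k := rfl
      rw [h1, hz, Prod.pow_mk, one_pow]
      congr 1
      have h2 : (DihedralGroup.r (q m : ZMod (4 * q m)) : DihedralGroup (4 * q m)) =
          DihedralGroup.r 1 ^ (q m) := by rw [DihedralGroup.r_one_pow]
      rw [h2, ← pow_mul, DihedralGroup.r_one_pow]
    have hne1 : ∀ k : ℕ, 0 < k → k < 4 → z ^ k ≠ 1 := by
      intro k h1 h2 h3
      have h4 := hzpow k
      rw [h3] at h4
      have h5 := congrArg Prod.snd h4
      change (1 : DihedralGroup (4 * q m)) = _ at h5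
      rw [DihedralGroup.one_def] at h5
      injection h5 with h6
      have h7 : 0 < q m * k := Nat.mul_pos hqm h1
      have h8 : q m * k < 4 * q m := by nlinarith
      exact natCast_ne_zero h7 h8 h6.symm
    have hz4 : z ^ 4 = 1 := by
      apply Subtype.ext
      rw [hzpow 4]
      change _ = ((1 : Equiv.Perm (E × Bool)), (1 : DihedralGroup (4 * q m)))
      rw [mul_comm, ZMod.natCast_self, DihedralGroup.one_def]
    have hord : orderOf z = 4 := by
      have h1 : Fact (Nat.Prime 2) := ⟨Nat.prime_two⟩
      have := orderOf_eq_prime_pow (x := z) (n := 1) (p := 2) (by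
        rw [pow_one]; exact hne1 2 (by norm_num) (by norm_num)) (by
        rw [show 2 ^ (1 + 1) = 4 by norm_num]; exact hz4)
      simpa using this
    have hord2 : orderOf (z ^ 2) = 2 := by
      have h1 : Fact (Nat.Prime 2) := ⟨Nat.prime_two⟩
      apply orderOf_eq_prime
      · rw [← pow_mul]; exact hz4
      · exact hne1 2 (by norm_num) (by norm_num)
    -- conjugation
    have hconj : ∀ v : V m, v * z * v⁻¹ = z ∨ v * z * v⁻¹ = z⁻¹ := by
      rintro ⟨⟨f, d⟩, hv⟩
      rcases d with i | i
      · left
        apply Subtype.ext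
        change (f, DihedralGroup.r i) * (z : Equiv.Perm (E × Bool) × DihedralGroup (4 * q m)) *
          (f, DihedralGroup.r i)⁻¹ = _
        rw [hz]
        ext1
        · change f * 1 * f⁻¹ = 1; group
        · change DihedralGroup.r i * DihedralGroup.r _ * (DihedralGroup.r i)⁻¹ = DihedralGroup.r _
          simp
      · right
        apply Subtype.ext
        change (f, DihedralGroup.sr i) * (z : Equiv.Perm (E × Bool) × DihedralGroup (4 * q m)) *
          (f, DihedralGroup.sr i)⁻¹ =
          (z : Equiv.Perm (E × Bool) × DihedralGroup (4 * q m))⁻¹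
        rw [hz]
        ext1
        · change f * 1 * f⁻¹ = 1⁻¹; group
        · change DihedralGroup.sr i * DihedralGroup.r _ * (DihedralGroup.sr i)⁻¹ =
            (DihedralGroup.r _)⁻¹
          simp
    have hnorm : ∀ k : ℕ, (Subgroup.zpowers (z ^ k)).Normal := by
      intro k
      constructor
      intro n hn g
      obtain ⟨j, rfl⟩ := Subgroup.mem_zpowers_iff.1 hn
      have h1 : g * (z ^ k) ^ j * g⁻¹ = ((g * z * g⁻¹) ^ k) ^ j := by
        rw [conj_pow, conj_zpow]
      rw [h1]
      rcases hconj g with h2 | h2
      · rw [h2]; exact Subgroup.zpow_mem _ (Subgroup.mem_zpowers _) _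
      · rw [h2, inv_pow, inv_zpow]
        exact Subgroup.inv_mem _ (Subgroup.zpow_mem _ (Subgroup.mem_zpowers _) _)
    set B : Subgroup (V m) := ((π m).comp (of true)).range with hB
    have hBz : ∀ x ∈ B, x ∈ Subgroup.zpowers z → x = 1 := by
      rintro x ⟨y, rfl⟩ hx
      have hxk : (π m).comp (of true) y ∈ Submonoid.powers z := by
        rw [mem_powers_iff_mem_zpowers]; exact hx
      obtain ⟨k, hk⟩ := hxk
      have h1 := hzpow k
      have h2 : ((π m (of true y) : (P m).range) : Equiv.Perm (E × Bool) ×
          DihedralGroup (4 * q m)) = (1, DihedralGroup.r ((q m * k : ℕ) : ZMod (4 * q m))) := by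
        rw [← h1]; exact congrArg Subtype.val hk.symm
      rw [hval] at h2
      have h3 : τ (of true y) = 1 := congrArg Prod.fst h2
      have h4 : y = 1 := by
        apply hτ true
        rw [map_one]; exact h3
      rw [h4, map_one]
    have hdisj : ∀ k : ℕ, (Subgroup.zpowers (z ^ k)).relIndex B = Nat.card B := by
      intro k
      unfold Subgroup.relIndex
      have h1 : (Subgroup.zpowers (z ^ k)).subgroupOf B = ⊥ := by
        rw [Subgroup.subgroupOf_eq_bot, Subgroup.disjoint_def]
        intro x hx hxB
        apply hBz x hxB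
        have h2 : Subgroup.zpowers (z ^ k) ≤ Subgroup.zpowers z := by
          rw [Subgroup.zpowers_le]; exact Subgroup.pow_mem _ (Subgroup.mem_zpowers _) _
        exact h2 hx
      rw [h1, Subgroup.index_bot]
    have hcard : ∀ k : ℕ, Nat.card (B ⊔ Subgroup.zpowers (z ^ k) : Subgroup (V m)) =
        orderOf (z ^ k) * Nat.card B := by
      intro k
      have h0 := hnorm k
      have h1 := Subgroup.relIndex_mul_relIndex ⊥ (Subgroup.zpowers (z ^ k))
        (B ⊔ Subgroup.zpowers (z ^ k)) bot_le le_sup_right
      rw [Subgroup.relIndex_bot_left, Subgroup.relIndex_bot_left, Subgroup.relIndex_sup_right,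
        hdisj, Nat.card_zpowers] at h1
      exact h1.symm
    have hBpos : 0 < Nat.card B := Nat.card_pos
    have hle12 : B ⊔ Subgroup.zpowers (z ^ 2) ≤ B ⊔ Subgroup.zpowers (z ^ 1) := by
      apply sup_le_sup_left
      rw [Subgroup.zpowers_le, pow_one]
      exact Subgroup.pow_mem _ (Subgroup.mem_zpowers _) _
    have hc1 : Nat.card (B ⊔ Subgroup.zpowers (z ^ 2) : Subgroup (V m)) = 2 * Nat.card B := by
      rw [hcard 2, hord2]
    have hc2 : Nat.card (B ⊔ Subgroup.zpowers (z ^ 1) : Subgroup (V m)) = 4 * Nat.card B := by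
      rw [hcard 1, pow_one, hord]
    refine ⟨B ⊔ Subgroup.zpowers (z ^ 2), B ⊔ Subgroup.zpowers (z ^ 1), le_sup_left, hle12, ?_, ?_,
      ?_⟩
    · have h1 := Subgroup.relIndex_mul_relIndex ⊥ B (B ⊔ Subgroup.zpowers (z ^ 2)) bot_le
        le_sup_left
      rw [Subgroup.relIndex_bot_left, Subgroup.relIndex_bot_left, hc1] at h1
      nlinarith
    · have h1 := Subgroup.relIndex_mul_relIndex ⊥ (B ⊔ Subgroup.zpowers (z ^ 2))
        (B ⊔ Subgroup.zpowers (z ^ 1)) bot_le hle12
      rw [Subgroup.relIndex_bot_left, Subgroup.relIndex_bot_left, hc1, hc2] at h1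
      have h2 : (2 * Nat.card B) * (B ⊔ Subgroup.zpowers (z ^ 2)).relIndex
          (B ⊔ Subgroup.zpowers (z ^ 1)) = (2 * Nat.card B) * 2 := by rw [h1]; ring
      exact Nat.eq_of_mul_eq_mul_left (by omega) h2
    · -- tree width
      let ψ : V m →* DihedralGroup (q m) :=
        ((red (q m)).comp (MonoidHom.snd _ _)).comp (P m).range.subtype
      have hψ : ∀ x, ψ (π m x) = red (q m) (dlt hidx (4 * q m) x) := fun x => rfl
      have hψz : ψ z = 1 := by
        change red (q m) (dlt hidx (4 * q m) (t ^ (q m))) = 1
        rw [map_pow, ht, DihedralGroup.r_one_pow, red_r, map_natCast, ZMod.natCast_self,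
          DihedralGroup.one_def]
      have hker : Nat.card ψ.ker ≤ 4 * M := by
        let j : ψ.ker → Equiv.Perm (E × Bool) × Fin 4 := fun v =>
          (((v : V m) : Equiv.Perm (E × Bool) × DihedralGroup (4 * q m)).1,
            match ((v : V m) : Equiv.Perm (E × Bool) × DihedralGroup (4 * q m)).2 with
            | DihedralGroup.r i => ⟨i.val / q m, by
                have : NeZero (4 * q m) := ⟨by omega⟩
                have h1 := ZMod.val_lt i
                exact Nat.div_lt_of_lt_mul (lt_of_lt_of_eq h1 (Nat.mul_comm 4 (q m)))⟩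
            | DihedralGroup.sr _ => 0)
        have hj : Function.Injective j := by
          rintro ⟨⟨⟨f, d⟩, hv⟩, hk⟩ ⟨⟨⟨f', d'⟩, hv'⟩, hk'⟩ h
          have hd : red (q m) d = 1 := hk
          have hd' : red (q m) d' = 1 := hk'
          have : NeZero (4 * q m) := ⟨by omega⟩
          have hmod : ∀ i : ZMod (4 * q m), red (q m) (DihedralGroup.r i) = 1 → q m ∣ i.val := by
            intro i hi
            rw [red_r, DihedralGroup.one_def] at hi
            injection hi with h1
            have h2 : ((i.val : ℕ) : ZMod (q m)) = 0 := by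
              rw [← h1]
              conv_rhs => rw [← ZMod.natCast_zmod_val i]
              rw [map_natCast]
            exact (ZMod.natCast_eq_zero_iff _ _).1 h2
          rcases d with i | i
          · rcases d' with i' | i'
            · have h1 : f = f' := congrArg Prod.fst h
              have h2 : i.val / q m = i'.val / q m := by
                have h3 := congrArg Prod.snd h
                exact congrArg Fin.val h3
              have h3 := hmod i hd
              have h4 := hmod i' hd'
              have h5 : i.val = i'.val := by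
                rw [← Nat.div_mul_cancel h3, ← Nat.div_mul_cancel h4, h2]
              have h6 : i = i' := ZMod.val_injective _ h5
              subst h1; subst h6; rfl
            · exfalso
              rw [red_sr, DihedralGroup.one_def] at hd'
              cases hd'
          · exfalso
            rw [red_sr, DihedralGroup.one_def] at hd
            cases hd
        have h1 := Nat.card_le_card_of_injective j hj
        rw [Nat.card_prod, Nat.card_fin] at h1
        rw [hM]; omega
      have h1 := (tw_dihedral (q m)).pullback ψ inferInstance hker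
      apply h1.mono
      rintro D (rfl | rfl)
      · refine ⟨_, ⟨Subgroup.zpowers (DihedralGroup.sr 0), by simp, rfl⟩, ?_⟩
        rintro _ ⟨y, rfl⟩
        rw [Subgroup.mem_comap]
        change red (q m) (dlt hidx (4 * q m) (of false y)) ∈ _
        by_cases hy : y ∈ (φ false).range
        · rw [dlt_of_mem hidx _ hy, map_one]; exact Subgroup.one_mem _
        · rw [dlt_of_not_mem hidx _ hy]
          simp only [refl2, Bool.false_eq_true, if_false, red_sr, map_zero]
          exact Subgroup.mem_zpowers _
      · refine ⟨_, ⟨Subgroup.zpowers (DihedralGroup.sr 1), by simp, rfl⟩, ?_⟩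
        apply sup_le
        · rintro _ ⟨y, rfl⟩
          rw [Subgroup.mem_comap]
          change red (q m) (dlt hidx (4 * q m) (of true y)) ∈ _
          by_cases hy : y ∈ (φ true).range
          · rw [dlt_of_mem hidx _ hy, map_one]; exact Subgroup.one_mem _
          · rw [dlt_of_not_mem hidx _ hy]
            simp only [refl2, if_true, red_sr, map_one]
            exact Subgroup.mem_zpowers _
        · rw [Subgroup.zpowers_le, Subgroup.mem_comap, pow_one, hψz]
          exact Subgroup.one_mem _

end

end Pool.Agent.Q257.Sep
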