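import Pool.Agent.Q257.Sep.Cay

set_option autoImplicit false

/-! Limits of groups: separation and long isometric cycles. -/

namespace Pool.Agent.Q257.Sep

open Filter
open scoped Pointwise

/-- a converging sequence of quotients -/
structure Conv (Γ : Type) [Group Γ] (S : Set Γ) (H : ℕ → Type) [∀ k, Group (H k)]
    (Φ : ∀ k, Γ →* H k) (R : ℕ → ℕ) : Prop where
  fin : S.Finite
  one : (1 : Γ) ∈ S
  inv : ∀ s ∈ S, s⁻¹ ∈ S
  cl : Subgroup.closure S = ⊤
  mono : StrictMono R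
  rad : ∀ k, ∀ x ∈ S ^ R (k + 1), Φ k x ≠ 1 → Φ (k + 1) x ≠ 1
  ker : ∀ k x, Φ k x = 1 → Φ (k + 1) x = 1
  proper : ∀ k, ∃ x, Φ k x ≠ 1 ∧ Φ (k + 1) x = 1

variable {Γ : Type} [Group Γ] {S : Set Γ} {H : ℕ → Type} [∀ k, Group (H k)]
    {Φ : ∀ k, Γ →* H k} {R : ℕ → ℕ} (hC : Conv Γ S H Φ R)

include hC

theorem Conv.ker_le {k j : ℕ} (hkj : k ≤ j) {x : Γ} (hx : Φ k x = 1) : Φ j x = 1 := by
  induction j, hkj using Nat.le_induction with
  | base => exact hx
  | succ j _ ih => exact hC.ker j x ih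

theorem Conv.rad_le {k j : ℕ} (hkj : k ≤ j) {x : Γ} (hx : x ∈ S ^ R (k + 1)) (h : Φ k x ≠ 1) :
    Φ j x ≠ 1 := by
  induction j, hkj using Nat.le_induction with
  | base => exact h
  | succ j hj ih =>
    apply hC.rad j x _ ih
    exact pow_mono hC.one (hC.mono.monotone (by omega)) hx

/-- the kernel of the limit -/
def Conv.N : Subgroup Γ where
  carrier := {x | ∃ k, Φ k x = 1}
  one_mem' := ⟨0, map_one _⟩
  mul_mem' := by
    rintro a b ⟨k, hk⟩ ⟨j, hj⟩
    refine ⟨max k j, ?_⟩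
    rw [map_mul, hC.ker_le (le_max_left k j) hk, hC.ker_le (le_max_right k j) hj, mul_one]
  inv_mem' := by
    rintro a ⟨k, hk⟩
    exact ⟨k, by rw [map_inv, hk, inv_one]⟩

theorem Conv.mem_N {x : Γ} : x ∈ hC.N ↔ ∃ k, Φ k x = 1 := Iff.rfl

theorem Conv.normal : hC.N.Normal := by
  constructor
  rintro a ⟨k, hk⟩ g
  exact ⟨k, by rw [map_mul, map_mul, hk, mul_one, map_inv, mul_inv_cancel]⟩

/-- elements of the ball which die in the limit are already dead -/
theorem Conv.ball {k : ℕ} {r : ℕ} (hr : r ≤ R (k + 1)) {x : Γ} (hx : x ∈ S ^ r)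
    (h : x ∈ hC.N) : Φ k x = 1 := by
  by_contra hne
  obtain ⟨j, hj⟩ := h
  have hx' := pow_mono hC.one hr hx
  rcases le_total k j with hkj | hkj
  · exact hC.rad_le hkj hx' hne hj
  · exact hne (hC.ker_le hkj hj)

omit hC in
theorem image_pow' {G : Type} [Group G] (π : Γ →* G) (r : ℕ) : (π '' S) ^ r = π '' (S ^ r) := by
  induction r with
  | zero => rw [pow_zero, pow_zero, Set.image_one, map_one]; rfl
  | succ r ih => rw [pow_succ, pow_succ, ih, Set.image_mul]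

/-- separators of finite subgraphs of the limit -/
theorem Conv.cut_le {G : Type} [Group G] (π : Γ →* G) (hπ : ∀ x, π x = 1 ↔ x ∈ hC.N)
    (k : ℕ) {adj : H k → H k → Prop} {w : ℕ} (hs : ∀ x y, adj x y → adj y x)
    (hS : ∀ s ∈ S, ∀ x y, x ≠ y → x * y⁻¹ = Φ k s → adj x y)
    (hX : ∀ X : Finset (H k), X.Nonempty → ∃ v ∈ X, Simp adj X w v)
    (Λ : (cayley G (π '' S)).Subgraph) (hfin : Λ.verts.Finite)
    (hn : 2 * Λ.verts.ncard + 1 ≤ R (k + 1)) : cut Λ ≤ w + 1 := by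
  classical
  set n := Λ.verts.ncard with hndef
  have hinv' : ∀ s ∈ π '' S, s⁻¹ ∈ π '' S := by
    rintro _ ⟨s, hs, rfl⟩; exact ⟨s⁻¹, hC.inv s hs, map_inv _ _⟩
  let 𝔅 : Set (Finset G) := {B | (B : Set G) ⊆ Λ.verts ∧ Conn Λ.Adj B ∧ n < 2 * B.card}
  suffices h : ∃ Z : Finset G, (Z : Set G) ⊆ Λ.verts ∧ Z.card ≤ w + 1 ∧
      ∀ B ∈ 𝔅, ∃ z ∈ B, z ∈ Z by
    obtain ⟨Z, hZ1, hZ2, hZ3⟩ := h
    exact (cut_le_of_cover Λ hfin Z hZ1 (fun B h1 h2 h3 => hZ3 B ⟨h1, h2, h3⟩)).trans hZ2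
  by_cases hne : ∃ B0, B0 ∈ 𝔅
  swap
  · push Not at hne
    exact ⟨∅, by simp, by simp, fun B hB => absurd hB (hne B)⟩
  obtain ⟨B0, hB0⟩ := hne
  obtain ⟨x0, hx0⟩ := hB0.2.1.1
  -- two members intersect
  have hint : ∀ B ∈ 𝔅, ∀ B' ∈ 𝔅, ∃ x, x ∈ B ∧ x ∈ B' := by
    intro B hB B' hB'
    by_contra hcon
    push Not at hcon
    have hd : Disjoint B B' := Finset.disjoint_left.2 (fun x hx => hcon x hx)
    have h1 : ((B ∪ B' : Finset G) : Set G) ⊆ Λ.verts := by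
      rw [Finset.coe_union]; exact Set.union_subset hB.1 hB'.1
    have h2 := Set.ncard_le_ncard h1 hfin
    rw [Set.ncard_coe_finset, Finset.card_union_of_disjoint hd] at h2
    have h3 := hB.2.2
    have h4 := hB'.2.2
    omega
  let good : G → Prop := fun y => ∃ g ∈ S ^ n, π g * x0 = y
  have hgood : ∀ B ∈ 𝔅, ∀ y ∈ B, good y := by
    intro B hB y hy
    obtain ⟨b, hb, hb0⟩ := hint B hB B0 hB0
    have h1 := conn_reach hB0.2.1 hx0 b hb0
    have h2 := conn_reach hB.2.1 hb y hy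
    have h3 := h1.trans h2
    have hyv : y ∈ Λ.verts := hB.1 hy
    have hx0v : x0 ∈ Λ.verts := hB0.1 hx0
    have hreach : ∀ z, Relation.ReflTransGen Λ.Adj x0 z → ∃ hz : z ∈ Λ.verts,
        Λ.coe.Reachable ⟨x0, hx0v⟩ ⟨z, hz⟩ := by
      intro z hz
      induction hz with
      | refl => exact ⟨hx0v, SimpleGraph.Reachable.refl _⟩
      | @tail b c _ hbc ih =>
        obtain ⟨hb, hr⟩ := ih
        have hc : c ∈ Λ.verts := Λ.edge_vert hbc.symm
        refine ⟨hc, hr.trans ?_⟩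
        have : Λ.coe.Adj ⟨b, hb⟩ ⟨c, hc⟩ := hbc
        exact this.reachable
    obtain ⟨hyv', hr⟩ := hreach y h3
    have : Fintype Λ.verts := hfin.fintype
    obtain ⟨p⟩ := hr
    have hlt := p.toPath.2.length_lt
    have hcard : Fintype.card Λ.verts = n := by
      rw [hndef, Set.ncard_eq_toFinset_card', Set.toFinset_card]
    have h4 := walk_mem hinv' (p.toPath.1.map Λ.hom)
    rw [SimpleGraph.Walk.length_map] at h4
    have h1S : (1 : G) ∈ π '' S := ⟨1, hC.one, map_one _⟩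
    have h5 : x0 * y⁻¹ ∈ (π '' S) ^ n := pow_mono h1S (by omega) h4
    have h6 := inv_pow_mem hinv' n _ h5
    rw [image_pow'] at h6
    obtain ⟨g, hg, hgy⟩ := h6
    exact ⟨g, hg, by rw [hgy]; group⟩
  have hchoice : ∀ y : G, ∃ g : Γ, good y → g ∈ S ^ n ∧ π g * x0 = y := by
    intro y
    by_cases h : good y
    · obtain ⟨g, h1, h2⟩ := h; exact ⟨g, fun _ => ⟨h1, h2⟩⟩
    · exact ⟨1, fun h' => absurd h' h⟩
  choose γ hγ using hchoice
  let lam : G → H k := fun y => Φ k (γ y)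
  have hlinj : ∀ y y', good y → good y' → lam y = lam y' → y = y' := by
    intro y y' hy hy' h
    have h1 : Φ k ((γ y)⁻¹ * γ y') = 1 := by
      rw [map_mul, map_inv]
      change (lam y)⁻¹ * lam y' = 1
      rw [h, inv_mul_cancel]
    have h2 := (hπ _).2 (hC.mem_N.2 ⟨k, h1⟩)
    rw [map_mul, map_inv, inv_mul_eq_one] at h2
    rw [← (hγ y hy).2, ← (hγ y' hy').2, h2]
  have hladj : ∀ y y', good y → good y' → Λ.Adj y y' → adj (lam y) (lam y') := by
    intro y y' hy hy' ha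
    have h1 : (cayley G (π '' S)).Adj y y' := Λ.adj_sub ha
    have h2 : y * y'⁻¹ ∈ π '' S := by
      obtain ⟨-, h3 | h3⟩ := h1
      · exact h3
      · have := hinv' _ h3
        simpa using this
    obtain ⟨s, hs1, hs2⟩ := h2
    have h3 : (γ y)⁻¹ * (s * γ y') ∈ hC.N := by
      rw [← hπ, map_mul, map_mul, map_inv, inv_mul_eq_one]
      have h4 : π (γ y) * x0 = π s * (π (γ y') * x0) := by
        rw [(hγ y hy).2, (hγ y' hy').2, hs2]; group
      rw [← mul_assoc] at h4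
      exact mul_right_cancel h4
    have h4 : (γ y)⁻¹ * (s * γ y') ∈ S ^ (n + (1 + n)) := by
      rw [pow_add, pow_add, pow_one]
      exact ⟨_, inv_pow_mem hC.inv n _ (hγ y hy).1, _, ⟨s, hs1, _, (hγ y' hy').1, rfl⟩, rfl⟩
    have h5 := hC.ball (k := k) (by omega) h4 h3
    rw [map_mul, map_mul, map_inv, inv_mul_eq_one] at h5
    apply hS s hs1
    · intro h6
      exact h1.1 (hlinj y y' hy hy' h6)
    · change Φ k (γ y) * (Φ k (γ y'))⁻¹ = Φ k s
      rw [h5]; group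
  -- transport
  let U : Finset G := (hfin.toFinset).filter good
  have hBU : ∀ B ∈ 𝔅, B ⊆ U := by
    intro B hB y hy
    exact Finset.mem_filter.2 ⟨by rw [Set.Finite.mem_toFinset]; exact hB.1 hy, hgood B hB y hy⟩
  obtain ⟨Z', -, hZ2, hZ3⟩ := bramble_cover hs w (U.image lam)
    (fun Y _ hYne => hX Y hYne) {B' | ∃ B ∈ 𝔅, B' = B.image lam} (by
      rintro _ ⟨B, hB, rfl⟩
      refine ⟨Finset.image_subset_image (hBU B hB), ?_, ?_⟩
      · obtain ⟨y, hy⟩ := hB.2.1.1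
        exact ⟨_, Finset.mem_image_of_mem _ hy⟩
      · intro C' hC' hC'ne hC'B
        obtain ⟨z, hz⟩ := hC'ne
        obtain ⟨y, hy, rfl⟩ := Finset.mem_image.1 (hC' hz)
        obtain ⟨a, ha, b, hb, hbC, hab⟩ := hB.2.1.2 (B.filter (fun u => lam u ∈ C'))
          (Finset.filter_subset _ _) ⟨y, Finset.mem_filter.2 ⟨hy, hz⟩⟩ (by
            intro h
            apply hC'B
            apply Finset.Subset.antisymm hC'
            intro u hu
            obtain ⟨v, hv, rfl⟩ := Finset.mem_image.1 hu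
            rw [← h] at hv
            exact (Finset.mem_filter.1 hv).2)
        rw [Finset.mem_filter] at ha hbC
        exact ⟨lam a, ha.2, lam b, Finset.mem_image_of_mem _ hb, fun h => hbC ⟨hb, h⟩,
          hladj a b (hgood B hB a ha.1) (hgood B hB b hb) hab⟩) (by
      rintro _ ⟨B, hB, rfl⟩ _ ⟨B', hB', rfl⟩
      obtain ⟨x, hx, hx'⟩ := hint B hB B' hB'
      exact ⟨lam x, Finset.mem_image_of_mem _ hx, lam x, Finset.mem_image_of_mem _ hx',
        Or.inl rfl⟩)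
  refine ⟨U.filter (fun y => lam y ∈ Z'), ?_, ?_, ?_⟩
  · intro y hy
    have h1 := (Finset.mem_filter.1 (Finset.mem_coe.1 hy)).1
    have h2 := (Finset.mem_filter.1 h1).1
    rwa [Set.Finite.mem_toFinset] at h2
  · refine le_trans ?_ hZ2
    apply Finset.card_le_card_of_injOn lam
    · intro y hy
      exact (Finset.mem_filter.1 (Finset.mem_coe.1 hy)).2
    · intro y hy y' hy' h
      have h1 := (Finset.mem_filter.1 (Finset.mem_coe.1 hy)).1
      have h2 := (Finset.mem_filter.1 (Finset.mem_coe.1 hy')).1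
      exact hlinj y y' (Finset.mem_filter.1 h1).2 (Finset.mem_filter.1 h2).2 h
  · intro B hB
    obtain ⟨z, hz, hzZ⟩ := hZ3 _ ⟨B, hB, rfl⟩
    obtain ⟨y, hy, rfl⟩ := Finset.mem_image.1 hz
    exact ⟨y, hy, Finset.mem_filter.2 ⟨hBU B hB hy, hzZ⟩⟩

end Pool.Agent.Q257.Sep
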