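import Pool.Agent.Q257.Sep.StepB

set_option autoImplicit false

/-! The initial state, and the sequence of states. -/

namespace Pool.Agent.Q257.Sep

open Monoid Monoid.PushoutI Filter

/-- the cyclic group of order four -/
abbrev Z4 : Type := Multiplicative (ZMod 4)

/-- the element of order two -/
def z2 : Z4 := Multiplicative.ofAdd 2

theorem z2_order : orderOf z2 = 2 := by
  have h1 : Fact (Nat.Prime 2) := ⟨Nat.prime_two⟩
  apply orderOf_eq_prime
  · decide
  · decide

theorem card_Z4 : Nat.card Z4 = 4 := by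
  rw [Nat.card_eq_fintype_card]; rfl

/-- the trivial map -/
def triv : Unit →* Z4 := 1

theorem triv_range : triv.range = ⊥ := by
  rw [MonoidHom.range_eq_bot_iff]; rfl

theorem triv_inj : Function.Injective triv := fun _ _ _ => rfl

/-- the free product of two cyclic groups of order four -/
abbrev G0 : Type := Am triv triv

/-- its generators -/
def S0 : Set G0 := Set.range (inl triv triv) ∪ Set.range (inr triv triv)

/-- the initial state -/
noncomputable def st0 : St G0 S0 where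
  E := Unit
  O := Z4
  N := Z4
  f := triv
  g := triv
  hf := triv_inj
  hg := triv_inj
  A := Subgroup.zpowers z2
  B1 := Subgroup.zpowers z2
  B2 := ⊤
  fA := inferInstance
  fB := inferInstance
  hA := by rw [triv_range]; exact bot_le
  hA2 := by rw [triv_range, Subgroup.relIndex_bot_left, Nat.card_zpowers, z2_order]
  hB1 := by rw [triv_range]; exact bot_le
  hB12 := by rw [triv_range, Subgroup.relIndex_bot_left, Nat.card_zpowers, z2_order]
  hB2 := le_top
  hB22 := by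
    rw [Subgroup.relIndex_top_right]
    have h := Subgroup.card_mul_index (Subgroup.zpowers z2)
    rw [Nat.card_zpowers, z2_order, card_Z4] at h
    omega
  PO := ⊤
  PN := ⊤
  w := 3
  twO := TW.full _ (by rw [card_Z4])
  twN := TW.full _ (by rw [card_Z4])
  Φ := MonoidHom.id _
  surj := fun x => ⟨x, rfl⟩
  hS := by
    rintro s (⟨x, rfl⟩ | ⟨x, rfl⟩)
    · exact Or.inl ⟨x, trivial, rfl⟩
    · exact Or.inr ⟨x, trivial, rfl⟩

theorem S0_finite : S0.Finite := (Set.finite_range _).union (Set.finite_range _)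

theorem one_mem_S0 : (1 : G0) ∈ S0 := Or.inl ⟨1, map_one _⟩

theorem inv_mem_S0 : ∀ s ∈ S0, s⁻¹ ∈ S0 := by
  rintro s (⟨x, rfl⟩ | ⟨x, rfl⟩)
  · exact Or.inl ⟨x⁻¹, map_inv _ _⟩
  · exact Or.inr ⟨x⁻¹, map_inv _ _⟩

theorem closure_S0 : Subgroup.closure S0 = ⊤ := by
  rw [Subgroup.eq_top_iff']
  intro z
  refine am_induction _ _ (P := fun z => z ∈ Subgroup.closure S0) ?_ ?_ ?_ z
  · intro x; exact Subgroup.subset_closure (Or.inl ⟨x, rfl⟩)
  · intro x; exact Subgroup.subset_closure (Or.inr ⟨x, rfl⟩)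
  · intro x y hx hy; exact Subgroup.mul_mem _ hx hy

section

open scoped Pointwise

theorem pow_finite {G : Type} [Group G] {S : Set G} (hS : S.Finite) (r : ℕ) : (S ^ r).Finite := by
  induction r with
  | zero => rw [pow_zero]; exact Set.finite_one
  | succ r ih => rw [pow_succ]; exact Set.Finite.mul ih hS

/-- The sequence of quotients: `F` is a prescribed function. -/
theorem exists_seq (F : ℕ → ℕ) : ∃ (st : ℕ → St G0 S0) (R : ℕ → ℕ), StrictMono R ∧
    (∀ k, F ((st (k + 1)).w) ≤ R (k + 1)) ∧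
    (∀ k, ∀ x ∈ S0 ^ R (k + 1), (st k).Φ x ≠ 1 → (st (k + 1)).Φ x ≠ 1) ∧
    (∀ k x, (st k).Φ x = 1 → (st (k + 1)).Φ x = 1) ∧
    (∀ k, ∃ x, (st k).Φ x ≠ 1 ∧ (st (k + 1)).Φ x = 1) := by
  classical
  have hstep : ∀ s : St G0 S0, ∃ w' : ℕ, ∀ r : ℕ, ∃ s' : St G0 S0, s'.w = w' ∧
      (∀ x ∈ S0 ^ r, s.Φ x ≠ 1 → s'.Φ x ≠ 1) ∧ (∀ x, s.Φ x = 1 → s'.Φ x = 1) ∧
      ∃ x, s.Φ x ≠ 1 ∧ s'.Φ x = 1 := by
    intro s
    obtain ⟨w', hw'⟩ := s.step
    refine ⟨w', fun r => ?_⟩
    have hfin : {x | x ∈ S0 ^ r ∧ s.Φ x ≠ 1}.Finite := by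
      apply Set.Finite.subset (pow_finite S0_finite r)
      intro x hx; exact hx.1
    obtain ⟨s', h1, h2, h3, h4⟩ := hw' hfin.toFinset (by
      intro t ht
      rw [Set.Finite.mem_toFinset] at ht
      exact ht.2)
    refine ⟨s', h1, ?_, h3, h4⟩
    intro x hx hx1
    apply h2 x
    rw [Set.Finite.mem_toFinset]
    exact ⟨hx, hx1⟩
  choose W nx hnx1 hnx2 hnx3 hnx4 using hstep
  let nr : St G0 S0 × ℕ → ℕ := fun p => max (p.2 + 1) (F (W p.1))
  let sq : ℕ → St G0 S0 × ℕ := fun k => Nat.rec (st0, 0) (fun _ p => (nx p.1 (nr p), nr p)) k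
  have hsq : ∀ k, sq (k + 1) = (nx (sq k).1 (nr (sq k)), nr (sq k)) := fun k => rfl
  refine ⟨fun k => (sq k).1, fun k => (sq k).2, ?_, ?_, ?_, ?_, ?_⟩
  · apply strictMono_nat_of_lt_succ
    intro k
    rw [hsq]
    exact Nat.lt_of_succ_le (le_max_left _ _)
  · intro k
    simp only [hsq, hnx1]
    exact le_max_right _ _
  · intro k x hx h
    simp only [hsq] at hx ⊢
    exact hnx2 _ _ x hx h
  · intro k x hx
    exact hnx3 _ _ x hx
  · intro k
    exact hnx4 _ _

end

end Pool.Agent.Q257.Sep
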