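import Pool.Agent.Q257.Sep.Hyp
import Pool.Agent.Q257.Sep.Seq

set_option autoImplicit false

/-! The main theorem. -/

namespace Pool.Agent.Q257.Sep

open Filter
open scoped Pointwise

theorem cut_le_ncard {V : Type} {Γ : SimpleGraph V} (Λ : Γ.Subgraph) :
    cut Λ ≤ Λ.verts.ncard := by
  apply Nat.sInf_le
  refine ⟨Λ.verts, subset_rfl, rfl, ?_⟩
  intro c
  exfalso
  obtain ⟨⟨x, hx⟩, -⟩ := c.nonempty_supp
  rw [SimpleGraph.Subgraph.deleteVerts_verts] at hx
  exact hx.2 hx.1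

theorem sep_le {V : Type} {Γ : SimpleGraph V} {n b : ℕ}
    (h : ∀ Λ : Γ.Subgraph, Λ.verts.Finite → Λ.verts.ncard ≤ n → cut Λ ≤ b) : sep Γ n ≤ b := by
  apply csSup_le
  · exact ⟨_, ⊥, by simp, by simp, rfl⟩
  · rintro k ⟨Λ, h1, h2, rfl⟩
    exact h Λ h1 h2

theorem sep_le_self {V : Type} (Γ : SimpleGraph V) (n : ℕ) : sep Γ n ≤ n :=
  sep_le fun Λ _ h => (cut_le_ncard Λ).trans h

theorem main (f : ℕ → ℕ) (hf : Tendsto f atTop atTop) :
    ∃ (G : Type) (_ : Group G) (S : Finset G), Subgroup.closure (S : Set G) = ⊤ ∧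
      (cayley G (S : Set G)).Connected ∧
      (∀ v, ((cayley G (S : Set G)).neighborSet v).Finite) ∧
      (∀ v w : G, ∃ e : cayley G (S : Set G) ≃g cayley G (S : Set G), e v = w) ∧
      (∀ᶠ n in atTop, sep (cayley G (S : Set G)) n ≤ f n) ∧
      (∃ C : ℝ, ∀ n : ℕ, 2 ≤ n → (sep (cayley G (S : Set G)) n : ℝ) ≤ C * Real.log n) ∧
      ¬ Hyperbolic (cayley G (S : Set G)) := by
  classical
  -- a slower function
  have hlog : Tendsto (fun n => Nat.log 2 n) atTop atTop := by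
    rw [tendsto_atTop_atTop]
    intro b
    exact ⟨2 ^ b, fun n hn => Nat.le_log_of_pow_le (by norm_num) hn⟩
  have hf' : Tendsto (fun n => min (f n) (Nat.log 2 n)) atTop atTop := by
    rw [tendsto_atTop] at hf hlog ⊢
    intro b
    filter_upwards [hf b, hlog b] with n h1 h2
    exact le_min h1 h2
  have hF : ∀ w : ℕ, ∃ N : ℕ, ∀ n, N ≤ n → w + 1 ≤ min (f n) (Nat.log 2 n) := by
    intro w
    rw [tendsto_atTop_atTop] at hf'
    exact hf' (w + 1)
  choose F hF using hF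
  obtain ⟨st, R, hmono, hFR, hrad, hker, hproper⟩ := exists_seq (fun w => 2 * F w + 1)
  have hC : Conv G0 S0 (fun k => Am (st k).f (st k).g) (fun k => (st k).Φ) R :=
    ⟨S0_finite, one_mem_S0, inv_mem_S0, closure_S0, hmono, hrad, hker, hproper⟩
  have hnorm := hC.normal
  let π : G0 →* G0 ⧸ hC.N := QuotientGroup.mk' hC.N
  have hsurj : Function.Surjective π := QuotientGroup.mk'_surjective _
  have hπ : ∀ x, π x = 1 ↔ x ∈ hC.N := fun x => QuotientGroup.eq_one_iff x
  have hfin : (π '' S0).Finite := S0_finite.image _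
  have hinv' : ∀ s ∈ π '' S0, s⁻¹ ∈ π '' S0 := by
    rintro _ ⟨s, hs, rfl⟩; exact ⟨s⁻¹, inv_mem_S0 s hs, map_inv _ _⟩
  have hcl' : Subgroup.closure (π '' S0) = ⊤ := by
    rw [← MonoidHom.map_closure, closure_S0, ← MonoidHom.range_eq_map, MonoidHom.range_eq_top]
    exact hsurj
  -- the separation profile
  have hsep : ∀ᶠ n in atTop, sep (cayley (G0 ⧸ hC.N) (π '' S0)) n ≤
      min (f n) (Nat.log 2 n) := by
    filter_upwards [eventually_ge_atTop (R 1)] with n hn
    have hex : ∃ k, 2 * n + 1 ≤ R (k + 1) := by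
      refine ⟨2 * n + 1, ?_⟩
      have := hmono.le_apply (x := 2 * n + 1 + 1)
      omega
    obtain ⟨k, hk⟩ : ∃ k, k = Nat.find hex := ⟨_, rfl⟩
    have hk1 : 2 * n + 1 ≤ R (k + 1) := by rw [hk]; exact Nat.find_spec hex
    obtain ⟨j, hj⟩ : ∃ j, k = j + 1 := by
      refine ⟨k - 1, ?_⟩
      have : k ≠ 0 := by
        intro h0
        rw [h0] at hk1
        simp only [zero_add] at hk1
        omega
      omega
    have hk2 : ¬ (2 * n + 1 ≤ R (j + 1)) := Nat.find_min hex (by omega)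
    have h1 := hFR j
    have h2 : F (st k).w ≤ n := by
      rw [hj]; omega
    have h3 := hF (st k).w n h2
    refine le_trans ?_ h3
    apply sep_le
    intro Λ hΛ hΛn
    obtain ⟨adj, ha1, ha2, ha3, ha4⟩ := (st k).tw
    refine hC.cut_le π hπ k (adj := adj) ha1 ?_ ?_ Λ hΛ (by omega)
    · intro s hs x y hxy he
      rcases (st k).hS s hs with h | h
      · exact ha3 _ (Or.inl rfl) x y hxy (by rw [he]; exact h)
      · exact ha3 _ (Or.inr rfl) x y hxy (by rw [he]; exact h)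
    · intro X hX
      obtain ⟨x, hx⟩ := hX
      obtain ⟨v, hv, -, hs⟩ := ha4 X ∅ (Or.inl rfl) ⟨x, hx, Set.notMem_empty x⟩
      exact ⟨v, hv, hs⟩
  have hcoe : ((hfin.toFinset : Finset (G0 ⧸ hC.N)) : Set (G0 ⧸ hC.N)) = π '' S0 :=
    Set.Finite.coe_toFinset _
  refine ⟨G0 ⧸ hC.N, inferInstance, hfin.toFinset, ?_⟩
  rw [hcoe]
  refine ⟨hcl', cayley_connected hinv' hcl', fun v => cayley_locallyFinite hfin v, ?_, ?_, ?_,
    hC.not_hyperbolic π hsurj hπ⟩
  · intro v w
    exact ⟨rightMul (v⁻¹ * w), by change v * (v⁻¹ * w) = w; group⟩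
  · filter_upwards [hsep] with n hn
    exact hn.trans (min_le_left _ _)
  · rw [eventually_atTop] at hsep
    obtain ⟨n0, hn0⟩ := hsep
    have hl2 : 0 < Real.log 2 := Real.log_pos (by norm_num)
    refine ⟨(n0 + 1) / Real.log 2, ?_⟩
    intro n hn
    have hnr : (2 : ℝ) ≤ n := by exact_mod_cast hn
    have hln : Real.log 2 ≤ Real.log n := Real.log_le_log (by norm_num) hnr
    by_cases h : n0 ≤ n
    · have h1 := (hn0 n h).trans (min_le_right _ _)
      have h2 : ((Nat.log 2 n : ℕ) : ℝ) ≤ Real.log n / Real.log 2 := by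
        have := Real.natLog_le_logb n 2
        rwa [Real.logb] at this
      have h3 : (sep (cayley (G0 ⧸ hC.N) (π '' S0)) n : ℝ) ≤ ((Nat.log 2 n : ℕ) : ℝ) := by
        exact_mod_cast h1
      refine (h3.trans h2).trans ?_
      rw [div_mul_eq_mul_div]
      apply div_le_div_of_nonneg_right _ hl2.le
      have h4 : 0 ≤ (n0 : ℝ) * Real.log n := by positivity
      nlinarith
    · have h1 : (sep (cayley (G0 ⧸ hC.N) (π '' S0)) n : ℝ) ≤ n0 + 1 := by
        have := sep_le_self (cayley (G0 ⧸ hC.N) (π '' S0)) n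
        have h2 : sep (cayley (G0 ⧸ hC.N) (π '' S0)) n ≤ n0 + 1 := by omega
        exact_mod_cast h2
      refine h1.trans ?_
      rw [div_mul_eq_mul_div, le_div_iff₀ hl2]
      exact mul_le_mul_of_nonneg_left hln (by positivity)

end Pool.Agent.Q257.Sep
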