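import Pool.Agent.Q257.Sep.Two

set_option autoImplicit false

/-! The inductive step: one more quotient. -/

namespace Pool.Agent.Q257.Sep

open Monoid Monoid.PushoutI Filter

/-- A state: a quotient of `Γ` which is an amalgamated product over a finite group, with room for
the next steps, and with tree width at most `w`. -/
structure St (Γ : Type) [Group Γ] (S : Set Γ) where
  E : Type
  O : Type
  N : Type
  [gE : Group E]
  [gO : Group O]
  [gN : Group N]
  [fE : Finite E]
  f : E →* O
  g : E →* N
  hf : Function.Injective f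
  hg : Function.Injective g
  A : Subgroup O
  B1 : Subgroup N
  B2 : Subgroup N
  fA : Finite A
  fB : Finite B2
  hA : f.range ≤ A
  hA2 : f.range.relIndex A = 2
  hB1 : g.range ≤ B1
  hB12 : g.range.relIndex B1 = 2
  hB2 : B1 ≤ B2
  hB22 : B1.relIndex B2 = 2
  PO : Subgroup O
  PN : Subgroup N
  w : ℕ
  twO : TW O {PO, A} w
  twN : TW N {PN, B2} w
  Φ : Γ →* Am f g
  surj : Function.Surjective Φ
  hS : ∀ s ∈ S, Φ s ∈ PO.map (inl f g) ∨ Φ s ∈ PN.map (inr f g)

attribute [instance] St.gE St.gO St.gN St.fE

section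

variable {E O N : Type} [Group E] [Group O] [Group N] {f : E →* O} {g : E →* N}
  {A : Subgroup O} {B : Subgroup N} (hA : f.range ≤ A) (hB : g.range ≤ B)

/-- corestriction -/
def cores (hA : f.range ≤ A) : E →* A := f.codRestrict A (fun e => hA ⟨e, rfl⟩)

theorem cores_apply (e : E) : ((cores hA e : A) : O) = f e := rfl

theorem cores_inj (hf : Function.Injective f) : Function.Injective (cores hA) := by
  intro x y h
  exact hf (congrArg Subtype.val h)

theorem cores_index : (cores hA).range.index = f.range.relIndex A := by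
  have h : (cores hA).range = f.range.subgroupOf A := by
    ext ⟨x, hx⟩
    rw [Subgroup.mem_subgroupOf]
    constructor
    · rintro ⟨e, he⟩
      exact ⟨e, congrArg Subtype.val he⟩
    · rintro ⟨e, he⟩
      exact ⟨e, Subtype.ext he⟩
  rw [h]; rfl

variable {V : Type} [Group V] (α : A →* V) (β : B →* V)

/-- the new right factor -/
abbrev XX : Type := Am A.subtype α

/-- the map of the new base to the new right factor -/
def jj : B →* XX α := (inr A.subtype α).comp β

/-- the new group -/
abbrev HH : Type := Am B.subtype (jj α β)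

theorem jj_inj (hα : Function.Injective α) (hβ : Function.Injective β) :
    Function.Injective (jj α β) := by
  intro x y h
  exact hβ (inr_inj _ _ Subtype.coe_injective hα h)

/-- the map from the old group to the new group -/
def theta (h : ∀ e, α (cores hA e) = β (cores hB e)) : Am f g →* HH α β :=
  amLift f g ((inr B.subtype (jj α β)).comp (inl A.subtype α)) (inl B.subtype (jj α β)) (by
    intro e
    have h1 : inl A.subtype α (f e) = inr A.subtype α (α (cores hA e)) :=
      inl_eq_inr A.subtype α (cores hA e)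
    have h2 : inl B.subtype (jj α β) (g e) = inr B.subtype (jj α β) (jj α β (cores hB e)) :=
      inl_eq_inr B.subtype (jj α β) (cores hB e)
    rw [h2, MonoidHom.comp_apply, h1, h e]
    rfl)

theorem theta_inl (h : ∀ e, α (cores hA e) = β (cores hB e)) (x : O) :
    theta hA hB α β h (inl f g x) = inr B.subtype (jj α β) (inl A.subtype α x) :=
  amLift_inl _ _ _ _ _ _

theorem theta_inr (h : ∀ e, α (cores hA e) = β (cores hB e)) (x : N) :
    theta hA hB α β h (inr f g x) = inl B.subtype (jj α β) x :=
  amLift_inr _ _ _ _ _ _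

/-- images of the elements of `A` -/
theorem theta_A (h : ∀ e, α (cores hA e) = β (cores hB e)) (a : A) :
    theta hA hB α β h (inl f g a) = inr B.subtype (jj α β) (inr A.subtype α (α a)) := by
  rw [theta_inl]
  congr 1
  exact inl_eq_inr A.subtype α a

/-- images of the elements of `B` -/
theorem theta_B (h : ∀ e, α (cores hA e) = β (cores hB e)) (b : B) :
    theta hA hB α β h (inr f g b) = inr B.subtype (jj α β) (inr A.subtype α (β b)) := by
  rw [theta_inr]
  exact inl_eq_inr B.subtype (jj α β) b

theorem theta_pow (h : ∀ e, α (cores hA e) = β (cores hB e)) (a : A) (b : B) (k : ℕ) :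
    theta hA hB α β h ((inl f g a * inr f g b) ^ k) =
      inr B.subtype (jj α β) (inr A.subtype α ((α a * β b) ^ k)) := by
  rw [map_pow, map_mul, theta_A, theta_B, map_pow, map_mul, map_pow, map_mul]

theorem theta_pow_one (h : ∀ e, α (cores hA e) = β (cores hB e)) (a : A) (b : B) (k : ℕ)
    (hk : (α a * β b) ^ k = 1) :
    theta hA hB α β h ((inl f g a * inr f g b) ^ k) = 1 := by
  rw [theta_pow, hk, map_one, map_one]

theorem exists_not_mem_of_relIndex {G : Type} [Group G] {H K : Subgroup G}
    (h : H.relIndex K = 2) : ∃ x ∈ K, x ∉ H := by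
  by_contra hcon
  push Not at hcon
  have h1 : H.relIndex K = 1 := by
    rw [Subgroup.relIndex_eq_one]; exact hcon
  omega

theorem tw_new (hα : Function.Injective α) {PO : Subgroup O} {L2 : Subgroup V} {w : ℕ}
    (hO : TW O {PO, A} w) (hV : TW V {α.range, L2} w) :
    TW (XX α) {PO.map (inl A.subtype α), L2.map (inr A.subtype α)} w := by
  have h1 := TW.am (f := A.subtype) (g := α) Subtype.coe_injective hα hO hV
    ⟨A, Or.inr rfl, by rw [Subgroup.range_subtype]⟩ ⟨_, Or.inl rfl, le_rfl⟩
  refine h1.mono ?_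
  intro D hD
  refine ⟨D, ?_, le_rfl⟩
  rcases hD with hD | hD
  · exact Or.inl ⟨PO, Or.inl rfl, hD⟩
  · exact Or.inr ⟨L2, Or.inr rfl, hD⟩

theorem theta_ker [Finite V] (hf : Function.Injective f) (hg : Function.Injective g)
    (hA2 : f.range.relIndex A = 2) (hB2 : g.range.relIndex B = 2)
    (h : ∀ e, α (cores hA e) = β (cores hB e)) : ∃ z, z ≠ 1 ∧ theta hA hB α β h z = 1 := by
  obtain ⟨a, haA, haf⟩ := exists_not_mem_of_relIndex hA2
  obtain ⟨b, hbB, hbg⟩ := exists_not_mem_of_relIndex hB2
  exact ⟨_, pow_ne_one f g hf hg haf hbg (k := Nat.card V) Nat.card_pos,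
    theta_pow_one hA hB α β h ⟨a, haA⟩ ⟨b, hbB⟩ (Nat.card V) pow_card_eq_one'⟩

theorem theta_mem_left (h : ∀ e, α (cores hA e) = β (cores hB e)) (P : Subgroup O) (x : Am f g)
    (hx : x ∈ P.map (inl f g)) :
    theta hA hB α β h x ∈ (P.map (inl A.subtype α)).map (inr B.subtype (jj α β)) := by
  obtain ⟨y, hy, rfl⟩ := hx
  rw [theta_inl]
  exact ⟨_, ⟨y, hy, rfl⟩, rfl⟩

theorem theta_mem_right (h : ∀ e, α (cores hA e) = β (cores hB e)) (P : Subgroup N) (x : Am f g)
    (hx : x ∈ P.map (inr f g)) :
    theta hA hB α β h x ∈ P.map (inl B.subtype (jj α β)) := by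
  obtain ⟨y, hy, rfl⟩ := hx
  rw [theta_inr]
  exact ⟨y, hy, rfl⟩

theorem theta_surj (h : ∀ e, α (cores hA e) = β (cores hB e))
    (hgen : ∀ K : Subgroup V, (∀ a, α a ∈ K) → (∀ b, β b ∈ K) → K = ⊤) :
    Function.Surjective (theta hA hB α β h) := by
  rw [← MonoidHom.range_eq_top]
  set R := (theta hA hB α β h).range with hR
  have h1 : ∀ x, inl B.subtype (jj α β) x ∈ R := fun x => ⟨inr f g x, theta_inr hA hB α β h x⟩
  have h2 : ∀ x, inr B.subtype (jj α β) (inl A.subtype α x) ∈ R :=
    fun x => ⟨inl f g x, theta_inl hA hB α β h x⟩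
  have h3 : ∀ v, inr B.subtype (jj α β) (inr A.subtype α v) ∈ R := by
    have h4 := hgen (R.comap ((inr B.subtype (jj α β)).comp (inr A.subtype α)))
      (fun a => ⟨inl f g a, theta_A hA hB α β h a⟩)
      (fun b => ⟨inr f g b, theta_B hA hB α β h b⟩)
    intro v
    have h5 : v ∈ R.comap ((inr B.subtype (jj α β)).comp (inr A.subtype α)) := by
      rw [h4]; trivial
    exact h5
  rw [Subgroup.eq_top_iff']
  intro z
  refine am_induction _ _ (P := fun z => z ∈ R) h1 ?_ (fun x y hx hy => R.mul_mem hx hy) z
  intro x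
  refine am_induction _ _ (P := fun x => inr B.subtype (jj α β) x ∈ R) h2 h3 ?_ x
  intro x y hx hy
  rw [map_mul]; exact R.mul_mem hx hy

end

section

variable {E O N : Type} [Group E] [Group O] [Group N] {f : E →* O} {g : E →* N}
  {A : Subgroup O} {B : Subgroup N} (hA : f.range ≤ A) (hB : g.range ≤ B)

/-- the amalgamated product of `A` and `B` -/
abbrev WW : Type := Am (cores hA) (cores hB)

theorem ww_comm (e : E) : inl (cores hA) (cores hB) (cores hA e) =
    inr (cores hA) (cores hB) (cores hB e) := inl_eq_inr _ _ e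

theorem wret_comm (e : E) : ((inl f g).comp A.subtype) (cores hA e) =
    ((inr f g).comp B.subtype) (cores hB e) := inl_eq_inr f g e

/-- retraction on the amalgamated product of `A` and `B` -/
def wret : WW hA hB →* Am f g :=
  amLift (cores hA) (cores hB) ((inl f g).comp A.subtype) ((inr f g).comp B.subtype)
    (wret_comm hA hB)

theorem wret_inl (a : A) : wret hA hB (inl (cores hA) (cores hB) a) = inl f g a :=
  amLift_inl _ _ _ _ _ _

theorem wret_inr (b : B) : wret hA hB (inr (cores hA) (cores hB) b) = inr f g b :=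
  amLift_inr _ _ _ _ _ _

/-- retraction on the right factor -/
def xret : XX (inl (cores hA) (cores hB)) →* Am f g :=
  amLift A.subtype (inl (cores hA) (cores hB)) (inl f g) (wret hA hB)
    (fun a => (wret_inl hA hB a).symm)

theorem xret_inl (x : O) : xret hA hB (inl _ _ x) = inl f g x := amLift_inl _ _ _ _ _ _

theorem xret_inr (x : WW hA hB) : xret hA hB (inr _ _ x) = wret hA hB x := amLift_inr _ _ _ _ _ _

theorem xret_jj (b : B) : xret hA hB (jj (inl (cores hA) (cores hB)) (inr (cores hA) (cores hB)) b) =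
    inr f g (B.subtype b) := by
  rw [jj, MonoidHom.comp_apply, xret_inr, wret_inr]
  rfl

/-- retraction -/
def retr : HH (inl (cores hA) (cores hB)) (inr (cores hA) (cores hB)) →* Am f g :=
  amLift B.subtype (jj (inl (cores hA) (cores hB)) (inr (cores hA) (cores hB))) (inr f g)
    (xret hA hB) (fun b => (xret_jj hA hB b).symm)

theorem retr_theta (z : Am f g) : retr hA hB (theta hA hB _ _ (ww_comm hA hB) z) = z := by
  have h : (retr hA hB).comp (theta hA hB _ _ (ww_comm hA hB)) = MonoidHom.id (Am f g) := by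
    apply am_hom_ext
    · intro x
      rw [MonoidHom.comp_apply, theta_inl, retr, amLift_inr, xret_inl]
      rfl
    · intro x
      rw [MonoidHom.comp_apply, theta_inr, retr, amLift_inl]
      rfl
  exact DFunLike.congr_fun h z

/-- the quotients of a sequence converge to the group -/
theorem theta_approx (hf : Function.Injective f) (hg : Function.Injective g)
    {V : ℕ → Type} [∀ m, Group (V m)] (π : ∀ m, WW hA hB →* V m)
    (hl : ∀ m, Function.Injective ((π m).comp (inl _ _)))
    (hr : ∀ m, Function.Injective ((π m).comp (inr _ _)))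
    (h1 : ∀ x ∉ (inl (cores hA) (cores hB)).range, ∀ᶠ m in atTop,
      π m x ∉ ((π m).comp (inl _ _)).range)
    (h2 : ∀ x ∉ (inr (cores hA) (cores hB)).range, ∀ᶠ m in atTop,
      π m x ∉ ((π m).comp (inr _ _)).range)
    (hcomm : ∀ m e, ((π m).comp (inl _ _)) (cores hA e) = ((π m).comp (inr _ _)) (cores hB e))
    (z : Am f g) (hz : z ≠ 1) : ∀ᶠ m in atTop, theta hA hB _ _ (hcomm m) z ≠ 1 := by
  have hfA := cores_inj hA hf
  have hgB := cores_inj hB hg
  have hil := inl_inj (cores hA) (cores hB) hfA hgB
  have hir := inr_inj (cores hA) (cores hB) hfA hgB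
  -- first amalgam
  let p1 : ∀ _ : ℕ, O →* O := fun _ => MonoidHom.id O
  have hp1 : ∀ (m : ℕ) (a : A), p1 m (A.subtype a) = A.subtype a := fun _ _ => rfl
  have hq1 : ∀ (m : ℕ) (a : A), π m (inl (cores hA) (cores hB) a) =
      ((π m).comp (inl _ _)) a := fun _ _ => rfl
  obtain ⟨-, ap2⟩ := am_approx (f := A.subtype) (g := inl (cores hA) (cores hB))
    (f' := fun _ => A.subtype) (g' := fun m => (π m).comp (inl _ _)) Subtype.coe_injective hil
    (fun _ => Subtype.coe_injective) hl p1 π hp1 hq1
    (fun x hx => Eventually.of_forall fun m => hx) h1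
  set M1 := amMap (f := A.subtype) (g := inl (cores hA) (cores hB))
    (f' := fun _ => A.subtype) (g' := fun m => (π m).comp (inl _ _)) p1 π hp1 hq1 with hM1
  have hjinj : ∀ m, Function.Injective (jj ((π m).comp (inl (cores hA) (cores hB)))
      ((π m).comp (inr (cores hA) (cores hB)))) := fun m => jj_inj _ _ (hl m) (hr m)
  have hq2 : ∀ m (b : B), M1 m (jj (inl (cores hA) (cores hB)) (inr (cores hA) (cores hB)) b) =
      jj ((π m).comp (inl (cores hA) (cores hB))) ((π m).comp (inr (cores hA) (cores hB))) b := by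
    intro m b
    rw [hM1, jj, jj]
    exact amLift_inr _ _ _ _ _ _
  have h3 : ∀ x ∉ (jj (inl (cores hA) (cores hB)) (inr (cores hA) (cores hB))).range,
      ∀ᶠ m in atTop, M1 m x ∉ (jj ((π m).comp (inl (cores hA) (cores hB)))
        ((π m).comp (inr (cores hA) (cores hB)))).range := by
    intro x hx
    by_cases hxr : x ∈ (inr A.subtype (inl (cores hA) (cores hB))).range
    · obtain ⟨w, rfl⟩ := hxr
      have hw : w ∉ (inr (cores hA) (cores hB)).range := by
        rintro ⟨b, rfl⟩
        exact hx ⟨b, rfl⟩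
      filter_upwards [h2 w hw] with m hm
      rintro ⟨b, hb⟩
      apply hm
      refine ⟨b, ?_⟩
      have h4 : M1 m (inr A.subtype (inl (cores hA) (cores hB)) w) =
          inr A.subtype ((π m).comp (inl _ _)) (π m w) := by
        rw [hM1]
        exact amLift_inr _ _ _ _ _ _
      rw [h4] at hb
      exact inr_inj _ _ Subtype.coe_injective (hl m) hb
    · filter_upwards [ap2 x hxr] with m hm
      rintro ⟨b, hb⟩
      apply hm
      exact ⟨((π m).comp (inr _ _)) b, hb⟩
  let p2 : ∀ _ : ℕ, N →* N := fun _ => MonoidHom.id N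
  have hp2 : ∀ (m : ℕ) (b : B), p2 m (B.subtype b) = B.subtype b := fun _ _ => rfl
  obtain ⟨ap3, -⟩ := am_approx (f := B.subtype)
    (g := jj (inl (cores hA) (cores hB)) (inr (cores hA) (cores hB)))
    (f' := fun _ => B.subtype) (g' := fun m => jj ((π m).comp (inl (cores hA) (cores hB)))
      ((π m).comp (inr (cores hA) (cores hB)))) Subtype.coe_injective (jj_inj _ _ hil hir)
    (fun _ => Subtype.coe_injective) hjinj p2 M1 hp2 hq2
    (fun x hx => Eventually.of_forall fun m => hx) h3
  have h5 : theta hA hB _ _ (ww_comm hA hB) z ≠ 1 := by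
    intro h
    apply hz
    rw [← retr_theta hA hB z, h, map_one]
  filter_upwards [ap3 _ h5] with m hm
  intro h6
  apply hm
  rw [← h6]
  have h7 : (amMap (f := B.subtype)
      (g := jj (inl (cores hA) (cores hB)) (inr (cores hA) (cores hB)))
      (f' := fun _ => B.subtype) (g' := fun m => jj ((π m).comp (inl (cores hA) (cores hB)))
      ((π m).comp (inr (cores hA) (cores hB)))) p2 M1 hp2 hq2 m).comp
      (theta hA hB _ _ (ww_comm hA hB)) = theta hA hB _ _ (hcomm m) := by
    apply am_hom_ext
    · intro x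
      rw [MonoidHom.comp_apply, theta_inl, theta_inl, amMap, amLift_inr, MonoidHom.comp_apply]
      congr 1
    · intro x
      rw [MonoidHom.comp_apply, theta_inr, theta_inr, amMap, amLift_inl]
      rfl
  exact DFunLike.congr_fun h7 z

end

end Pool.Agent.Q257.Sep
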