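import Pool.Agent.Q257.Sep.Step

set_option autoImplicit false

/-! The inductive step: one more quotient. -/

namespace Pool.Agent.Q257.Sep

open Monoid Monoid.PushoutI Filter

theorem St.step {Γ : Type} [Group Γ] {S : Set Γ} (s : St Γ S) :
    ∃ w' : ℕ, ∀ T : Finset Γ, (∀ t ∈ T, s.Φ t ≠ 1) → ∃ s' : St Γ S, s'.w = w' ∧
      (∀ t ∈ T, s'.Φ t ≠ 1) ∧ (∀ x, s.Φ x = 1 → s'.Φ x = 1) ∧
      ∃ x, s.Φ x ≠ 1 ∧ s'.Φ x = 1 := by
  classical
  have fA : Finite s.A := s.fA
  have fB2 : Finite s.B2 := s.fB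
  have fB : Finite s.B1 := Finite.of_injective _ (Subgroup.inclusion_injective s.hB2)
  have hfA := cores_inj s.hA s.hf
  have hgB := cores_inj s.hB1 s.hg
  obtain ⟨κ, V, iV, π, hfin, hsurj, hinj, hap, hL⟩ := exists_insert
    (φ := famHom (cores s.hA) (cores s.hB1)) (famHom_inj hfA hgB) (by
      intro b
      cases b
      · exact (cores_index s.hA).trans s.hA2
      · exact (cores_index s.hB1).trans s.hB12)
  have hl : ∀ m, Function.Injective ((π m).comp (inl (cores s.hA) (cores s.hB1))) :=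
    fun m => hinj m false
  have hr : ∀ m, Function.Injective ((π m).comp (inr (cores s.hA) (cores s.hB1))) :=
    fun m => hinj m true
  have hcomm : ∀ m e, ((π m).comp (inl (cores s.hA) (cores s.hB1))) (cores s.hA e) =
      ((π m).comp (inr (cores s.hA) (cores s.hB1))) (cores s.hB1 e) :=
    fun m e => congrArg (π m) (inl_eq_inr _ _ e)
  have hgen : ∀ m, ∀ K : Subgroup (V m),
      (∀ a, ((π m).comp (inl (cores s.hA) (cores s.hB1))) a ∈ K) →
      (∀ b, ((π m).comp (inr (cores s.hA) (cores s.hB1))) b ∈ K) → K = ⊤ := by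
    intro m K h1 h2
    rw [Subgroup.eq_top_iff']
    intro v
    obtain ⟨w, rfl⟩ := hsurj m v
    refine am_induction _ _ (P := fun w => π m w ∈ K) h1 h2 ?_ w
    intro x y hx hy
    rw [map_mul]; exact K.mul_mem hx hy
  refine ⟨max s.w κ, ?_⟩
  intro T hT
  have hev : ∀ᶠ m in atTop, ∀ t ∈ T, theta s.hA s.hB1 _ _ (hcomm m) (s.Φ t) ≠ 1 := by
    rw [Filter.eventually_all_finset]
    intro t ht
    exact theta_approx s.hA s.hB1 s.hf s.hg π hl hr (hap false) (hap true) hcomm (s.Φ t) (hT t ht)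
  obtain ⟨m, hm⟩ := hev.exists
  obtain ⟨L1, L2, hL1, hL12, hi1, hi2, htw⟩ := hL m
  have hfV := hfin m
  have hjrange : (jj ((π m).comp (inl (cores s.hA) (cores s.hB1)))
      ((π m).comp (inr (cores s.hA) (cores s.hB1)))).range =
      ((π m).comp (inr (cores s.hA) (cores s.hB1))).range.map
        (inr s.A.subtype ((π m).comp (inl (cores s.hA) (cores s.hB1)))) := by
    rw [jj, MonoidHom.range_comp]
  have hinr := inr_inj s.A.subtype ((π m).comp (inl (cores s.hA) (cores s.hB1)))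
    Subtype.coe_injective (hl m)
  refine ⟨{
    E := s.B1
    O := s.N
    N := XX ((π m).comp (inl (cores s.hA) (cores s.hB1)))
    f := s.B1.subtype
    g := jj ((π m).comp (inl (cores s.hA) (cores s.hB1)))
      ((π m).comp (inr (cores s.hA) (cores s.hB1)))
    hf := Subtype.coe_injective
    hg := jj_inj _ _ (hl m) (hr m)
    A := s.B2
    B1 := L1.map (inr s.A.subtype ((π m).comp (inl (cores s.hA) (cores s.hB1))))
    B2 := L2.map (inr s.A.subtype ((π m).comp (inl (cores s.hA) (cores s.hB1))))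
    fA := fB2
    fB := Finite.of_equiv _ (L2.equivMapOfInjective _ hinr).toEquiv
    hA := by rw [Subgroup.range_subtype]; exact s.hB2
    hA2 := by rw [Subgroup.range_subtype]; exact s.hB22
    hB1 := by rw [hjrange]; exact Subgroup.map_mono hL1
    hB12 := by
      rw [hjrange, Subgroup.relIndex_map_map_of_injective _ _ hinr]; exact hi1
    hB2 := Subgroup.map_mono hL12
    hB22 := by rw [Subgroup.relIndex_map_map_of_injective _ _ hinr]; exact hi2
    PO := s.PN
    PN := s.PO.map (inl s.A.subtype ((π m).comp (inl (cores s.hA) (cores s.hB1))))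
    w := max s.w κ
    twO := s.twN.weaken (le_max_left _ _)
    twN := tw_new _ (hl m) (s.twO.weaken (le_max_left s.w κ)) (htw.weaken (le_max_right s.w κ))
    Φ := (theta s.hA s.hB1 _ _ (hcomm m)).comp s.Φ
    surj := (theta_surj s.hA s.hB1 _ _ (hcomm m) (hgen m)).comp s.surj
    hS := ?_ }, rfl, hm, ?_, ?_⟩
  · intro t ht
    rcases s.hS t ht with h | h
    · exact Or.inr (theta_mem_left s.hA s.hB1 _ _ (hcomm m) s.PO _ h)
    · exact Or.inl (theta_mem_right s.hA s.hB1 _ _ (hcomm m) s.PN _ h)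
  · intro x hx
    exact (congrArg (theta s.hA s.hB1 _ _ (hcomm m)) hx).trans (map_one _)
  · have hker := theta_ker s.hA s.hB1 ((π m).comp (inl (cores s.hA) (cores s.hB1)))
      ((π m).comp (inr (cores s.hA) (cores s.hB1))) s.hf s.hg s.hA2 s.hB12 (hcomm m)
    obtain ⟨z, hz1, hz2⟩ := hker
    have hs1 : ∃ x, s.Φ x = z := s.surj z
    obtain ⟨x, hx⟩ := hs1
    have hx1 : s.Φ x ≠ 1 := by rw [hx]; exact hz1
    have hx2 : theta s.hA s.hB1 _ _ (hcomm m) (s.Φ x) = 1 := by rw [hx]; exact hz2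
    exact ⟨x, hx1, hx2⟩

/-- tree width of the group of a state -/
theorem St.tw {Γ : Type} [Group Γ] {S : Set Γ} (s : St Γ S) :
    TW (Am s.f s.g) {s.PO.map (inl s.f s.g), s.PN.map (inr s.f s.g)} s.w := by
  have h1 := TW.am s.hf s.hg s.twO s.twN ⟨s.A, by simp, s.hA⟩
    ⟨s.B2, by simp, s.hB1.trans s.hB2⟩
  apply h1.mono
  rintro D (rfl | rfl)
  · exact ⟨_, Or.inl ⟨s.PO, by simp, rfl⟩, le_rfl⟩
  · exact ⟨_, Or.inr ⟨s.PN, by simp, rfl⟩, le_rfl⟩

end Pool.Agent.Q257.Sep
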