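import Pool.Agent.Q257.Sep.Am

set_option autoImplicit false

/-! Chordal graphs on groups: a notion of tree width at most `w` for the Cayley graph of a group with
respect to a family of finite subgroups, and its behaviour under amalgamation. -/

namespace Pool.Agent.Q257.Sep

open Monoid Monoid.PushoutI

/-- right cosets of the members of a family of subgroups, and the empty set -/
def IsK {G : Type} [Group G] (𝒟 : Set (Subgroup G)) (K : Set G) : Prop :=
  K = ∅ ∨ ∃ D ∈ 𝒟, ∃ g, K = {x | x * g⁻¹ ∈ D}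

/-- `v` is a simplicial vertex of `X` of degree at most `w` -/
def Simp {G : Type} (adj : G → G → Prop) (X : Finset G) (w : ℕ) (v : G) : Prop :=
  (∀ x ∈ X, ∀ y ∈ X, x ≠ v → y ≠ v → x ≠ y → adj v x → adj v y → adj x y) ∧
    {x | x ∈ X ∧ x ≠ v ∧ adj v x}.ncard ≤ w

/-- tree width at most `w` -/
def TW (G : Type) [Group G] (𝒟 : Set (Subgroup G)) (w : ℕ) : Prop :=
  ∃ adj : G → G → Prop, (∀ x y, adj x y → adj y x) ∧
    (∀ D ∈ 𝒟, Finite D ∧ Nat.card D ≤ w + 1) ∧
    (∀ D ∈ 𝒟, ∀ x y, x ≠ y → x * y⁻¹ ∈ D → adj x y) ∧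
    (∀ (X : Finset G) (K : Set G), IsK 𝒟 K → (∃ x ∈ X, x ∉ K) →
      ∃ v ∈ X, v ∉ K ∧ Simp adj X w v)

theorem ncard_coset {G : Type} [Group G] (D : Subgroup G) (g : G) :
    {x | x * g⁻¹ ∈ D}.ncard = Nat.card D := by
  have h : {x | x * g⁻¹ ∈ D} = (fun d => d * g) '' (D : Set G) := by
    ext x
    simp only [Set.mem_ofPred_eq, Set.mem_image, SetLike.mem_coe]
    constructor
    · intro hx; exact ⟨x * g⁻¹, hx, by group⟩
    · rintro ⟨d, hd, rfl⟩; simpa using hd
  rw [h, Set.ncard_image_of_injective _ (mul_left_injective g)]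
  rfl

theorem finite_coset {G : Type} [Group G] (D : Subgroup G) (g : G) (hD : Finite D) :
    {x | x * g⁻¹ ∈ D}.Finite := by
  have h : {x | x * g⁻¹ ∈ D} = (fun d => d * g) '' (D : Set G) := by
    ext x
    simp only [Set.mem_ofPred_eq, Set.mem_image, SetLike.mem_coe]
    constructor
    · intro hx; exact ⟨x * g⁻¹, hx, by group⟩
    · rintro ⟨d, hd, rfl⟩; simpa using hd
  rw [h]
  exact (Set.toFinite _).image _

theorem TW.mono {G : Type} [Group G] {𝒟 𝒟' : Set (Subgroup G)} {w : ℕ} (h : TW G 𝒟 w)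
    (h' : ∀ D' ∈ 𝒟', ∃ D ∈ 𝒟, D' ≤ D) : TW G 𝒟' w := by
  obtain ⟨adj, hs, hc, hq, hx⟩ := h
  refine ⟨adj, hs, ?_, ?_, ?_⟩
  · intro D' hD'
    obtain ⟨D, hD, hle⟩ := h' D' hD'
    obtain ⟨h1, h2⟩ := hc D hD
    exact ⟨Finite.of_injective _ (Subgroup.inclusion_injective hle),
      (Nat.card_le_card_of_injective _ (Subgroup.inclusion_injective hle)).trans h2⟩
  · intro D' hD' x y hxy hm
    obtain ⟨D, hD, hle⟩ := h' D' hD'
    exact hq D hD x y hxy (hle hm)
  · rintro X K (rfl | ⟨D', hD', g, rfl⟩) hX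
    · exact hx X ∅ (Or.inl rfl) hX
    · obtain ⟨D, hD, hle⟩ := h' D' hD'
      by_cases hcase : ∃ x ∈ X, x ∉ {x | x * g⁻¹ ∈ D}
      · obtain ⟨v, hv, hvK, hsim⟩ := hx X _ (Or.inr ⟨D, hD, g, rfl⟩) hcase
        exact ⟨v, hv, fun h => hvK (hle h), hsim⟩
      · push Not at hcase
        obtain ⟨v, hv, hvK⟩ := hX
        refine ⟨v, hv, hvK, ?_, ?_⟩
        · intro x hx y hy _ _ hxy _ _
          apply hq D hD x y hxy
          have h1 : x * g⁻¹ ∈ D := hcase x hx
          have h2 : y * g⁻¹ ∈ D := hcase y hy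
          have h3 := D.mul_mem h1 (D.inv_mem h2)
          simpa [mul_assoc] using h3
        · obtain ⟨hf, hcard⟩ := hc D hD
          have hsub : {x | x ∈ X ∧ x ≠ v ∧ adj v x} ⊆ {x | x * g⁻¹ ∈ D} \ {v} := by
            rintro x ⟨h1, h2, -⟩
            exact ⟨hcase x h1, h2⟩
          have hfin := finite_coset D g hf
          have h1 := Set.ncard_le_ncard hsub (hfin.subset Set.sdiff_subset)
          have h2 : ({x | x * g⁻¹ ∈ D} \ {v}).ncard + 1 = {x | x * g⁻¹ ∈ D}.ncard :=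
            Set.ncard_sdiff_singleton_add_one (hcase v hv) hfin
          rw [ncard_coset] at h2
          omega

theorem TW.weaken {G : Type} [Group G] {𝒟 : Set (Subgroup G)} {w w' : ℕ} (h : TW G 𝒟 w)
    (hw : w ≤ w') : TW G 𝒟 w' := by
  obtain ⟨adj, hs, hc, hq, hx⟩ := h
  refine ⟨adj, hs, fun D hD => ⟨(hc D hD).1, (hc D hD).2.trans (by omega)⟩, hq, ?_⟩
  intro X K hK hX
  obtain ⟨v, hv, hvK, h1, h2⟩ := hx X K hK hX
  exact ⟨v, hv, hvK, h1, h2.trans hw⟩

theorem TW.full {G : Type} [Group G] [Finite G] (𝒟 : Set (Subgroup G)) {w : ℕ}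
    (hw : Nat.card G ≤ w + 1) : TW G 𝒟 w := by
  refine ⟨fun _ _ => True, fun _ _ _ => trivial, ?_, fun _ _ _ _ _ _ => trivial, ?_⟩
  · intro D _
    exact ⟨inferInstance, (Subgroup.card_le_card_group D).trans hw⟩
  · rintro X K - ⟨v, hv, hvK⟩
    refine ⟨v, hv, hvK, fun _ _ _ _ _ _ _ _ _ => trivial, ?_⟩
    have hsub : {x | x ∈ X ∧ x ≠ v ∧ True} ⊆ Set.univ \ {v} := by
      rintro x ⟨_, h2, -⟩
      exact ⟨trivial, h2⟩
    have h1 := Set.ncard_le_ncard hsub (Set.toFinite _)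
    have h2 : ((Set.univ : Set G) \ {v}).ncard + 1 = (Set.univ : Set G).ncard :=
      Set.ncard_sdiff_singleton_add_one (Set.mem_univ v) (Set.toFinite _)
    rw [Set.ncard_univ] at h2
    refine le_trans h1 ?_
    omega

theorem ncard_fiber {V W : Type} [Group V] [Group W] (ψ : V →* W) {κ : ℕ} (hk : Finite ψ.ker)
    (hκ : Nat.card ψ.ker ≤ κ) (S : Set V) (T : Set W) (hT : T.Finite) (h : ∀ x ∈ S, ψ x ∈ T) :
    S.Finite ∧ S.ncard ≤ κ * T.ncard := by
  classical
  have hfib : ∀ b : W, {x | ψ x = b}.Finite ∧ {x | ψ x = b}.ncard ≤ κ := by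
    intro b
    by_cases hb : ∃ g, ψ g = b
    · obtain ⟨g, rfl⟩ := hb
      have he : {x | ψ x = ψ g} = {x | x * g⁻¹ ∈ ψ.ker} := by
        ext x
        simp [MonoidHom.mem_ker, mul_inv_eq_one]
      rw [he, ncard_coset]
      exact ⟨finite_coset _ g hk, hκ⟩
    · have he : {x | ψ x = b} = ∅ := by
        ext x
        simp only [Set.mem_ofPred_eq, Set.mem_empty_iff_false, iff_false]
        intro hx; exact hb ⟨x, hx⟩
      rw [he]
      simp
  have hS : S ⊆ ⋃ b ∈ T, {x | ψ x = b} := by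
    intro x hx
    simp only [Set.mem_iUnion, Set.mem_ofPred_eq]
    exact ⟨ψ x, h x hx, rfl⟩
  have hfin : (⋃ b ∈ T, {x | ψ x = b}).Finite := hT.biUnion (fun b _ => (hfib b).1)
  have hSf : S.Finite := hfin.subset hS
  refine ⟨hSf, ?_⟩
  have h1 := Finset.card_le_mul_card_image (f := ψ) hSf.toFinset κ (fun a _ => by
    have h2 : ((hSf.toFinset.filter (fun x => ψ x = a) : Finset V) : Set V) ⊆ {x | ψ x = a} := by
      intro x hx
      simp only [Finset.coe_filter, Set.mem_ofPred_eq] at hx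
      exact hx.2
    have h3 := Set.ncard_le_ncard h2 (hfib a).1
    rw [Set.ncard_coe_finset] at h3
    exact h3.trans (hfib a).2)
  have h4 : (hSf.toFinset.image ψ).card ≤ T.ncard := by
    rw [← Set.ncard_coe_finset]
    apply Set.ncard_le_ncard _ hT
    intro y hy
    simp only [Finset.coe_image, Set.Finite.coe_toFinset, Set.mem_image] at hy
    obtain ⟨x, hx, rfl⟩ := hy
    exact h x hx
  rw [Set.ncard_eq_toFinset_card _ hSf]
  exact h1.trans (Nat.mul_le_mul_left κ h4)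

theorem TW.pullback {V W : Type} [Group V] [Group W] (ψ : V →* W) {κ : ℕ} (hk : Finite ψ.ker)
    (hκ : Nat.card ψ.ker ≤ κ) {𝒟 : Set (Subgroup W)} {w : ℕ} (h : TW W 𝒟 w) :
    TW V {D | ∃ D' ∈ 𝒟, D = D'.comap ψ} (κ * (w + 1) - 1) := by
  obtain ⟨adj, hs, hc, hq, hx⟩ := h
  have hκ1 : 1 ≤ κ := le_trans (Nat.one_le_iff_ne_zero.2 (Nat.card_pos).ne') hκ
  have hpos : 1 ≤ κ * (w + 1) := Nat.mul_pos hκ1 (by omega)
  refine ⟨fun x y => x ≠ y ∧ (ψ x = ψ y ∨ adj (ψ x) (ψ y)), ?_, ?_, ?_, ?_⟩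
  · rintro x y ⟨h1, h2⟩
    exact ⟨h1.symm, h2.imp Eq.symm (hs _ _)⟩
  · rintro D ⟨D', hD', rfl⟩
    obtain ⟨h1, h2⟩ := hc D' hD'
    have h3 := ncard_fiber ψ hk hκ ((D'.comap ψ : Subgroup V) : Set V) (D' : Set W)
      (Set.toFinite _) (fun x hx => hx)
    refine ⟨h3.1, ?_⟩
    have h4 : Nat.card (D'.comap ψ) ≤ κ * Nat.card D' := h3.2
    have h5 : κ * Nat.card D' ≤ κ * (w + 1) := Nat.mul_le_mul_left κ h2
    omega
  · rintro D ⟨D', hD', rfl⟩ x y hxy hm
    refine ⟨hxy, ?_⟩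
    by_cases he : ψ x = ψ y
    · exact Or.inl he
    · right
      apply hq D' hD' _ _ he
      have : ψ (x * y⁻¹) ∈ D' := hm
      simpa using this
  · intro X K hK hX
    classical
    obtain ⟨K', hK', hKK⟩ : ∃ K' : Set W, IsK 𝒟 K' ∧ ∀ x, x ∈ K ↔ ψ x ∈ K' := by
      rcases hK with rfl | ⟨D, ⟨D', hD', rfl⟩, g, rfl⟩
      · exact ⟨∅, Or.inl rfl, by simp⟩
      · refine ⟨{y | y * (ψ g)⁻¹ ∈ D'}, Or.inr ⟨D', hD', ψ g, rfl⟩, ?_⟩
        intro x
        simp only [Set.mem_ofPred_eq, Subgroup.mem_comap, map_mul, map_inv]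
    obtain ⟨x0, hx0, hx0K⟩ := hX
    obtain ⟨v', hv', hv'K, hs1, hs2⟩ := hx (X.image ψ) K' hK'
      ⟨ψ x0, Finset.mem_image_of_mem _ hx0, fun h => hx0K ((hKK _).2 h)⟩
    obtain ⟨v, hv, rfl⟩ := Finset.mem_image.1 hv'
    refine ⟨v, hv, fun h => hv'K ((hKK _).1 h), ?_, ?_⟩
    · rintro x hxX y hyX hxv hyv hxy ⟨-, h1⟩ ⟨-, h2⟩
      refine ⟨hxy, ?_⟩
      by_cases he : ψ x = ψ y
      · exact Or.inl he
      · right
        by_cases hxe : ψ v = ψ x
        · rw [← hxe]
          rcases h2 with h2 | h2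
          · exact absurd (hxe.symm.trans h2) he
          · exact h2
        · by_cases hye : ψ v = ψ y
          · rw [← hye]
            rcases h1 with h1 | h1
            · exact absurd h1 hxe
            · exact hs _ _ h1
          · exact hs1 _ (Finset.mem_image_of_mem _ hxX) _ (Finset.mem_image_of_mem _ hyX)
              (fun h => hxe h.symm) (fun h => hye h.symm) he (h1.resolve_left hxe)
              (h2.resolve_left hye)
    · set S : Set V := {x | x ∈ X ∧ x ≠ v ∧ (v ≠ x ∧ (ψ v = ψ x ∨ adj (ψ v) (ψ x)))} with hS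
      set T : Set W := insert (ψ v) {y | y ∈ X.image ψ ∧ y ≠ ψ v ∧ adj (ψ v) y} with hT
      have hTfin : T.Finite := by
        apply Set.Finite.insert
        exact (Finset.finite_toSet (X.image ψ)).subset (fun y hy => hy.1)
      have hmap : ∀ x ∈ insert v S, ψ x ∈ T := by
        rintro x (rfl | ⟨h1, h2, h3, h4⟩)
        · exact Or.inl rfl
        · by_cases he : ψ x = ψ v
          · left; exact he
          · right
            exact ⟨Finset.mem_image_of_mem _ h1, he, h4.resolve_left (fun h => he h.symm)⟩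
      obtain ⟨hf, hle⟩ := ncard_fiber ψ hk hκ (insert v S) T hTfin hmap
      have h1 : (insert v S).ncard = S.ncard + 1 := by
        apply Set.ncard_insert_of_notMem
        · rintro ⟨-, h, -⟩; exact h rfl
        · exact hf.subset (Set.subset_insert _ _)
      have h2 : T.ncard ≤ w + 1 := (Set.ncard_insert_le _ _).trans (by omega)
      have h3 : κ * T.ncard ≤ κ * (w + 1) := Nat.mul_le_mul_left κ h2
      omega

section Glue

variable {ι : Type} {G : ι → Type} {H : Type} [∀ i, Group (G i)] [Group H] {φ : ∀ i, H →* G i}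

theorem exists_coord (φ : ∀ i, H →* G i) : ∃ (ρ : ι → PushoutI φ → PushoutI φ)
    (c : ∀ i, PushoutI φ → G i), (∀ i x, x = of i (c i x) * ρ i x) ∧
    (∀ i x z, x * z⁻¹ ∈ (of (φ := φ) i).range → ρ i x = ρ i z) := by
  have h : ∀ (i : ι), ∃ (ρ : PushoutI φ → PushoutI φ) (c : PushoutI φ → G i),
      (∀ x, x = of i (c x) * ρ x) ∧
      (∀ x z, x * z⁻¹ ∈ (of (φ := φ) i).range → ρ x = ρ z) := by
    intro i
    let q : PushoutI φ → Quotient (QuotientGroup.rightRel (of (φ := φ) i).range) :=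
      fun x => Quotient.mk _ x
    have h1 : ∀ x, ∃ u : G i, x = of i u * (q x).out := by
      intro x
      have h2 : (QuotientGroup.rightRel (of (φ := φ) i).range) (q x).out x :=
        Quotient.mk_out (s := QuotientGroup.rightRel (of (φ := φ) i).range) x
      rw [QuotientGroup.rightRel_apply] at h2
      obtain ⟨u, hu⟩ := h2
      exact ⟨u, by rw [hu]; group⟩
    choose c hc using h1
    refine ⟨fun x => (q x).out, c, hc, ?_⟩
    intro x z hxz
    have h3 : q x = q z := by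
      apply Quotient.sound
      change (QuotientGroup.rightRel (of (φ := φ) i).range) x z
      rw [QuotientGroup.rightRel_apply]
      have := (of (φ := φ) i).range.inv_mem hxz
      simpa using this
    simp only [h3]
  choose ρ c h1 h2 using h
  exact ⟨ρ, c, h1, h2⟩

theorem TW.glue [Nonempty ι] (hφ : ∀ i, Function.Injective (φ i))
    {𝒟 : ∀ i, Set (Subgroup (G i))} {w : ℕ}
    (h : ∀ i, TW (G i) (𝒟 i) w) (hr : ∀ i, (φ i).range ∈ 𝒟 i) :
    TW (PushoutI φ) {D | ∃ i, ∃ D' ∈ 𝒟 i, D = D'.map (of i)} w := by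
  classical
  choose adj hs hc hq hx using h
  obtain ⟨ρ, c, hρ, hρ2⟩ := exists_coord φ
  have hinj : ∀ i, Function.Injective (of (φ := φ) i) := of_injective hφ
  -- elements of a common coset
  have hdiff : ∀ i x z, ρ i x = ρ i z → x * z⁻¹ = of i (c i x * (c i z)⁻¹) := by
    intro i x z hxz
    conv_lhs => rw [hρ i x, hρ i z, hxz]
    rw [map_mul, map_inv]; group
  have hcinj : ∀ i x z, ρ i x = ρ i z → c i x = c i z → x = z := by
    intro i x z h1 h2
    rw [hρ i x, hρ i z, h1, h2]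
  have hmemD : ∀ i x z, ρ i x = ρ i z → ∀ D' : Subgroup (G i),
      (x * z⁻¹ ∈ D'.map (of (φ := φ) i) ↔ c i x * (c i z)⁻¹ ∈ D') := by
    intro i x z h1 D'
    rw [hdiff i x z h1, Subgroup.mem_map]
    constructor
    · rintro ⟨y, hy, he⟩
      rwa [← hinj i he]
    · intro hy; exact ⟨_, hy, rfl⟩
  have hrangeD : ∀ (i : ι) (D' : Subgroup (G i)) (x : PushoutI φ), x ∈ D'.map (of (φ := φ) i) →
      x ∈ (of (φ := φ) i).range := by
    rintro i D' x ⟨y, -, rfl⟩; exact ⟨y, rfl⟩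
  let Adj : PushoutI φ → PushoutI φ → Prop := fun x z => ∃ i, ρ i x = ρ i z ∧ adj i (c i x) (c i z)
  -- in a common base coset
  have hbase : ∀ x z : PushoutI φ, x ≠ z → x * z⁻¹ ∈ (base φ).range → ∀ i,
      ρ i x = ρ i z ∧ adj i (c i x) (c i z) := by
    intro x z hxz hm i
    have h1 : x * z⁻¹ ∈ (φ i).range.map (of (φ := φ) i) := by
      obtain ⟨a, ha⟩ := hm
      exact ⟨φ i a, ⟨a, rfl⟩, by rw [← ha]; exact of_apply_eq_base φ i a⟩
    have h2 := hρ2 i x z (hrangeD i _ _ h1)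
    refine ⟨h2, hq i _ (hr i) _ _ (fun h => hxz (hcinj i x z h2 h)) ?_⟩
    exact (hmemD i x z h2 _).1 h1
  -- local to global
  have hloc : ∀ (X : Finset (PushoutI φ)) (u : PushoutI φ) (j : ι), u ∈ X →
      (∀ x ∈ X, x ≠ u → ∀ i, i ≠ j → x * u⁻¹ ∈ (of (φ := φ) i).range →
        x * u⁻¹ ∈ (base φ).range) →
      Simp (adj j) ((X.filter (fun x => ρ j x = ρ j u)).image (c j)) w (c j u) →
      Simp Adj X w u := by
    intro X u j hu hl hsim
    have key : ∀ x ∈ X, x ≠ u → Adj u x → ρ j u = ρ j x ∧ adj j (c j u) (c j x) := by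
      rintro x hxX hxu ⟨i, h1, h2⟩
      by_cases hij : i = j
      · subst hij; exact ⟨h1, h2⟩
      · have h3 : x * u⁻¹ ∈ (of (φ := φ) i).range := by
          rw [hdiff i x u h1.symm]; exact ⟨_, rfl⟩
        have h4 := hl x hxX hxu i hij h3
        have h5 := hbase x u hxu h4 j
        exact ⟨h5.1.symm, hs j _ _ h5.2⟩
    constructor
    · intro x hxX y hyX hxu hyu hxy hax hay
      obtain ⟨h1, h2⟩ := key x hxX hxu hax
      obtain ⟨h3, h4⟩ := key y hyX hyu hay
      refine ⟨j, h1.symm.trans h3, ?_⟩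
      apply hsim.1 (c j x) _ (c j y) _ _ _ _ h2 h4
      · exact Finset.mem_image_of_mem _ (Finset.mem_filter.2 ⟨hxX, h1.symm⟩)
      · exact Finset.mem_image_of_mem _ (Finset.mem_filter.2 ⟨hyX, h3.symm⟩)
      · exact fun h => hxu (hcinj j x u h1.symm h)
      · exact fun h => hyu (hcinj j y u h3.symm h)
      · exact fun h => hxy (hcinj j x y (h1.symm.trans h3) h)
    · refine le_trans ?_ hsim.2
      apply Set.ncard_le_ncard_of_injOn (c j)
      · rintro x ⟨hxX, hxu, hax⟩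
        obtain ⟨h1, h2⟩ := key x hxX hxu hax
        exact ⟨Finset.mem_image_of_mem _ (Finset.mem_filter.2 ⟨hxX, h1.symm⟩),
          fun h => hxu (hcinj j x u h1.symm h), h2⟩
      · rintro x ⟨hxX, hxu, hax⟩ y ⟨hyX, hyu, hay⟩ hxy
        obtain ⟨h1, -⟩ := key x hxX hxu hax
        obtain ⟨h3, -⟩ := key y hyX hyu hay
        exact hcinj j x y (h1.symm.trans h3) hxy
  refine ⟨Adj, ?_, ?_, ?_, ?_⟩
  · rintro x z ⟨i, h1, h2⟩
    exact ⟨i, h1.symm, hs i _ _ h2⟩
  · rintro D ⟨i, D', hD', rfl⟩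
    obtain ⟨h1, h2⟩ := hc i D' hD'
    have h3 : Nat.card (D'.map (of (φ := φ) i)) = Nat.card D' :=
      Nat.card_congr (D'.equivMapOfInjective _ (hinj i)).toEquiv.symm
    refine ⟨Finite.of_equiv _ (D'.equivMapOfInjective _ (hinj i)).toEquiv, ?_⟩
    rw [h3]; exact h2
  · rintro D ⟨i, D', hD', rfl⟩ x y hxy hm
    have h1 := hρ2 i x y (hrangeD i _ _ hm)
    exact ⟨i, h1, hq i D' hD' _ _ (fun h => hxy (hcinj i x y h1 h)) ((hmemD i x y h1 D').1 hm)⟩
  · intro X K hK hX
    obtain ⟨i0, g, hKg, hKc⟩ : ∃ (i0 : ι) (g : PushoutI φ),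
        (∀ x ∈ K, x * g⁻¹ ∈ (of (φ := φ) i0).range) ∧
        ∃ K' : Set (G i0), IsK (𝒟 i0) K' ∧ ∀ x, x * g⁻¹ ∈ (of (φ := φ) i0).range →
          (x ∈ K ↔ c i0 x ∈ K') := by
      rcases hK with rfl | ⟨D, ⟨i, D', hD', rfl⟩, g, rfl⟩
      · exact ⟨Classical.arbitrary ι, 1, by simp, ∅, Or.inl rfl, by simp⟩
      · refine ⟨i, g, fun x hx => hrangeD i _ _ hx, {y | y * (c i g)⁻¹ ∈ D'},
          Or.inr ⟨D', hD', c i g, rfl⟩, ?_⟩
        intro x hx
        exact hmemD i x g (hρ2 i x g hx) D'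
    obtain ⟨K', hK', hKK⟩ := hKc
    by_cases hcase : ∀ x ∈ X, x * g⁻¹ ∈ (of (φ := φ) i0).range
    · -- everything in one piece
      have hρX : ∀ x ∈ X, ρ i0 x = ρ i0 g := fun x hx => hρ2 i0 x g (hcase x hx)
      obtain ⟨x0, hx0, hx0K⟩ := hX
      obtain ⟨z, hz, hzK, hsim⟩ := hx i0 (X.image (c i0)) K' hK'
        ⟨c i0 x0, Finset.mem_image_of_mem _ hx0, fun h => hx0K ((hKK x0 (hcase x0 hx0)).2 h)⟩
      obtain ⟨u, hu, rfl⟩ := Finset.mem_image.1 hz
      refine ⟨u, hu, fun h => hzK ((hKK u (hcase u hu)).1 h), hloc X u i0 hu ?_ ?_⟩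
      · intro x hxX _ i hi hm
        apply mem_two hφ hi hm
        have h1 := (of (φ := φ) i0).range.mul_mem (hcase x hxX)
          ((of (φ := φ) i0).range.inv_mem (hcase u hu))
        simpa [mul_assoc] using h1
      · have he : X.filter (fun x => ρ i0 x = ρ i0 u) = X := by
          apply Finset.filter_true_of_mem
          intro x hx
          rw [hρX x hx, hρX u hu]
        rw [he]; exact hsim
    · push Not at hcase
      obtain ⟨v, hvm, hvmax⟩ := Finset.exists_max_image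
        (X.filter (fun x => x * g⁻¹ ∉ (of (φ := φ) i0).range)) (fun x => len hφ (x * g⁻¹))
        (by obtain ⟨x, hx, hx2⟩ := hcase; exact ⟨x, Finset.mem_filter.2 ⟨hx, hx2⟩⟩)
      rw [Finset.mem_filter] at hvm
      obtain ⟨hvX, hv0⟩ := hvm
      obtain ⟨j, hj⟩ : ∃ j, fl hφ (v * g⁻¹) = some j := by
        rcases he : fl hφ (v * g⁻¹) with _ | j
        · exfalso
          obtain ⟨a, ha⟩ := fl_none hφ he
          apply hv0
          rw [ha]
          exact ⟨φ i0 a, of_apply_eq_base φ i0 a⟩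
        · exact ⟨j, rfl⟩
      obtain ⟨a, y', ha, hy', hvy⟩ := fl_some hφ hj
      have hlenv : len hφ (v * g⁻¹) = len hφ y' + 1 := by rw [hvy]; exact len_of_mul hφ a ha y' hy'
      set y := y' * g with hy
      have hvy2 : v * y⁻¹ = of j a := by
        rw [hy]
        have : v = of j a * y' * g := by rw [← hvy]; group
        rw [this]; group
      have hρvy : ρ j v = ρ j y := hρ2 j v y (by rw [hvy2]; exact ⟨a, rfl⟩)
      have hcv : c j v * (c j y)⁻¹ = a := by
        apply hinj j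
        rw [← hdiff j v y hρvy, hvy2]
      obtain ⟨z, hz, hzK, hsim⟩ := hx j ((X.filter (fun x => ρ j x = ρ j v)).image (c j))
        {z | z * (c j y)⁻¹ ∈ (φ j).range} (Or.inr ⟨_, hr j, _, rfl⟩)
        ⟨c j v, Finset.mem_image_of_mem _ (Finset.mem_filter.2 ⟨hvX, rfl⟩), by
          simp only [Set.mem_ofPred_eq, hcv]; exact ha⟩
      obtain ⟨u, hu, rfl⟩ := Finset.mem_image.1 hz
      rw [Finset.mem_filter] at hu
      obtain ⟨huX, huv⟩ := hu
      have huy : u * y⁻¹ = of j (c j u * (c j y)⁻¹) := hdiff j u y (huv.trans hρvy)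
      have hug : u * g⁻¹ = of j (c j u * (c j y)⁻¹) * y' := by
        rw [← huy, hy]; group
      have hlenu : len hφ (u * g⁻¹) = len hφ y' + 1 := by
        rw [hug]; exact len_of_mul hφ _ hzK y' hy'
      have hflu : fl hφ (u * g⁻¹) = some j := by
        rw [hug]; exact fl_of_mul hφ _ hzK y' hy'
      have hunot : u * g⁻¹ ∉ (of (φ := φ) i0).range := by
        intro hm
        rw [mem_range_iff hφ] at hm
        rcases hm with hm | ⟨h1, h2⟩
        · omega
        · apply hv0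
          rw [mem_range_iff hφ]
          right
          rw [hflu] at h2
          exact ⟨by omega, by rw [hj]; exact h2⟩
      refine ⟨u, huX, fun h => hunot (hKg u h), hloc X u j huX ?_ ?_⟩
      · intro x hxX hxu i hij hm
        obtain ⟨b, hb⟩ := hm
        by_cases hbr : b ∈ (φ i).range
        · obtain ⟨e, rfl⟩ := hbr
          rw [← hb, of_apply_eq_base]
          exact ⟨e, rfl⟩
        · exfalso
          have h1 : x * g⁻¹ = of i b * (u * g⁻¹) := by rw [hb]; group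
          have h2 : len hφ (x * g⁻¹) = len hφ (u * g⁻¹) + 1 := by
            rw [h1]
            apply len_of_mul hφ b hbr
            rw [hflu]
            intro h; exact hij (by simpa using h.symm)
          have h3 : x * g⁻¹ ∉ (of (φ := φ) i0).range := by
            intro hm
            rw [mem_range_iff hφ] at hm
            rcases hm with hm | ⟨h4, -⟩
            · omega
            · omega
          have h4 := hvmax x (Finset.mem_filter.2 ⟨hxX, h3⟩)
          omega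
      · have he : X.filter (fun x => ρ j x = ρ j u) = X.filter (fun x => ρ j x = ρ j v) := by
          apply Finset.filter_congr
          intro x _
          rw [huv]
        rw [he]; exact hsim

end Glue

end Pool.Agent.Q257.Sep
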