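import Pool.Agent.Q257.Sep.InsB

set_option autoImplicit false

/-! Amalgamated products of two groups. -/

namespace Pool.Agent.Q257.Sep

open Monoid Monoid.PushoutI Filter

/-- a family of two types -/
abbrev Fam (X Y : Type) : Bool → Type := fun b => Bool.rec X Y b

instance famGroup (X Y : Type) [Group X] [Group Y] : ∀ b, Group (Fam X Y b)
  | false => inferInstanceAs (Group X)
  | true => inferInstanceAs (Group Y)

instance famFinite (X Y : Type) [Finite X] [Finite Y] : ∀ b, Finite (Fam X Y b)
  | false => inferInstanceAs (Finite X)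
  | true => inferInstanceAs (Finite Y)

/-- the family of two maps -/
def famHom {E X Y : Type} [Group E] [Group X] [Group Y] (f : E →* X) (g : E →* Y) :
    ∀ b, E →* Fam X Y b
  | false => f
  | true => g

/-- amalgamated product of two groups -/
abbrev Am {E X Y : Type} [Group E] [Group X] [Group Y] (f : E →* X) (g : E →* Y) : Type :=
  PushoutI (famHom f g)

section

variable {E X Y : Type} [Group E] [Group X] [Group Y] (f : E →* X) (g : E →* Y)

/-- left factor -/
def inl : X →* Am f g := (of (φ := famHom f g) false : Fam X Y false →* _)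

/-- right factor -/
def inr : Y →* Am f g := (of (φ := famHom f g) true : Fam X Y true →* _)

theorem famHom_inj {f : E →* X} {g : E →* Y} (hf : Function.Injective f)
    (hg : Function.Injective g) : ∀ b, Function.Injective (famHom f g b)
  | false => hf
  | true => hg

theorem inl_inj (hf : Function.Injective f) (hg : Function.Injective g) :
    Function.Injective (inl f g) := of_injective (famHom_inj hf hg) false

theorem inr_inj (hf : Function.Injective f) (hg : Function.Injective g) :
    Function.Injective (inr f g) := of_injective (famHom_inj hf hg) true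

theorem inl_eq_inr (e : E) : inl f g (f e) = inr f g (g e) :=
  (of_apply_eq_base (famHom f g) false e).trans (of_apply_eq_base (famHom f g) true e).symm

/-- universal property -/
def amLift {K : Type} [Group K] (u : X →* K) (v : Y →* K) (h : ∀ e, u (f e) = v (g e)) :
    Am f g →* K :=
  lift (φ := famHom f g) (fun b => match b with
    | false => u
    | true => v) (u.comp f) (by
      intro b
      cases b
      · rfl
      · ext e
        exact (h e).symm)

theorem amLift_inl {K : Type} [Group K] (u : X →* K) (v : Y →* K) (h : ∀ e, u (f e) = v (g e))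
    (x : X) : amLift f g u v h (inl f g x) = u x := by
  unfold amLift inl
  exact lift_of _ _ _ _

theorem amLift_inr {K : Type} [Group K] (u : X →* K) (v : Y →* K) (h : ∀ e, u (f e) = v (g e))
    (x : Y) : amLift f g u v h (inr f g x) = v x := by
  unfold amLift inr
  exact lift_of (φ := famHom f g) _ _ _ _

theorem am_induction {P : Am f g → Prop} (hl : ∀ x, P (inl f g x)) (hr : ∀ y, P (inr f g y))
    (hm : ∀ x y, P x → P y → P (x * y)) (z : Am f g) : P z := by
  induction z using PushoutI.induction_on with
  | of i u =>
    cases i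
    · exact hl u
    · exact hr u
  | base e =>
    rw [← of_apply_eq_base (famHom f g) false e]
    exact hl (f e)
  | mul x y hx hy => exact hm x y hx hy

theorem am_hom_ext {K : Type} [Group K] {u v : Am f g →* K}
    (hl : ∀ x, u (inl f g x) = v (inl f g x)) (hr : ∀ y, u (inr f g y) = v (inr f g y)) :
    u = v := by
  refine MonoidHom.ext fun z => ?_
  refine am_induction f g (P := fun z => u z = v z) hl hr ?_ z
  intro x y hx hy
  rw [map_mul, map_mul, hx, hy]

/-- powers of a product of two letters are not trivial -/
theorem pow_ne_one (hf : Function.Injective f) (hg : Function.Injective g) {x : X} {y : Y}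
    (hx : x ∉ f.range) (hy : y ∉ g.range) {k : ℕ} (hk : 0 < k) :
    (inl f g x * inr f g y) ^ k ≠ 1 := by
  have hφ := famHom_inj hf hg
  have key : ∀ k : ℕ, len hφ ((inl f g x * inr f g y) ^ (k + 1)) = 2 * (k + 1) ∧
      fl hφ ((inl f g x * inr f g y) ^ (k + 1)) = some false := by
    intro k
    induction k with
    | zero =>
      rw [zero_add, pow_one]
      have h1 : fl hφ (inr f g y) = some true := fl_of_not_mem hφ (m := true) hy
      have h2 : len hφ (inr f g y) = 1 := len_of_not_mem hφ (m := true) hy
      have h3 := fl_of_mul hφ (i := false) (show Fam X Y false from x) hx (inr f g y)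
        (by rw [h1]; simp)
      have h4 := len_of_mul hφ (i := false) (show Fam X Y false from x) hx (inr f g y)
        (by rw [h1]; simp)
      rw [h2] at h4
      exact ⟨h4, h3⟩
    | succ k ih =>
      obtain ⟨ih1, ih2⟩ := ih
      rw [pow_succ']
      set z := (inl f g x * inr f g y) ^ (k + 1) with hz
      have h1 : fl hφ (inr f g y * z) = some true :=
        fl_of_mul hφ (i := true) (show Fam X Y true from y) hy z (by rw [ih2]; simp)
      have h2 : len hφ (inr f g y * z) = len hφ z + 1 :=
        len_of_mul hφ (i := true) (show Fam X Y true from y) hy z (by rw [ih2]; simp)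
      have h3 := fl_of_mul hφ (i := false) (show Fam X Y false from x) hx (inr f g y * z)
        (by rw [h1]; simp)
      have h4 := len_of_mul hφ (i := false) (show Fam X Y false from x) hx (inr f g y * z)
        (by rw [h1]; simp)
      rw [mul_assoc]
      refine ⟨?_, h3⟩
      rw [h2, ih1] at h4
      change len hφ (inl f g x * (inr f g y * z)) = _
      change len hφ (inl f g x * (inr f g y * z)) = _ at h4
      rw [h4]; ring
  obtain ⟨j, rfl⟩ : ∃ j, k = j + 1 := ⟨k - 1, by omega⟩
  intro h
  have h1 := (key j).1
  rw [h, len_one] at h1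
  omega

end

section

variable {E X Y : Type} [Group E] [Group X] [Group Y] {f : E →* X} {g : E →* Y}
  {X' Y' : ℕ → Type} [∀ m, Group (X' m)] [∀ m, Group (Y' m)] {f' : ∀ m, E →* X' m}
  {g' : ∀ m, E →* Y' m}

/-- the map between amalgamated products -/
def amMap (p : ∀ m, X →* X' m) (q : ∀ m, Y →* Y' m) (hp : ∀ m e, p m (f e) = f' m e)
    (hq : ∀ m e, q m (g e) = g' m e) (m : ℕ) : Am f g →* Am (f' m) (g' m) :=
  amLift f g ((inl (f' m) (g' m)).comp (p m)) ((inr (f' m) (g' m)).comp (q m)) (by
    intro e
    simp only [MonoidHom.comp_apply, hp, hq]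
    exact inl_eq_inr _ _ e)

theorem am_approx (hf : Function.Injective f) (hg : Function.Injective g)
    (hf' : ∀ m, Function.Injective (f' m)) (hg' : ∀ m, Function.Injective (g' m))
    (p : ∀ m, X →* X' m) (q : ∀ m, Y →* Y' m) (hp : ∀ m e, p m (f e) = f' m e)
    (hq : ∀ m e, q m (g e) = g' m e)
    (h1 : ∀ x ∉ f.range, ∀ᶠ m in atTop, p m x ∉ (f' m).range)
    (h2 : ∀ y ∉ g.range, ∀ᶠ m in atTop, q m y ∉ (g' m).range) :
    (∀ z : Am f g, z ≠ 1 → ∀ᶠ m in atTop, amMap p q hp hq m z ≠ 1) ∧
    (∀ z ∉ (inr f g).range, ∀ᶠ m in atTop, amMap p q hp hq m z ∉ (inr (f' m) (g' m)).range) := by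
  have hφ := famHom_inj hf hg
  have hφ' : ∀ m, ∀ b, Function.Injective (famHom (f' m) (g' m) b) :=
    fun m => famHom_inj (hf' m) (hg' m)
  let π : ∀ m b, Fam X Y b →* Fam (X' m) (Y' m) b := fun m b => match b with
    | false => p m
    | true => q m
  have hπ : ∀ m b, (π m b).comp (famHom f g b) = famHom (f' m) (g' m) b := by
    intro m b
    cases b
    · ext e; exact hp m e
    · ext e; exact hq m e
  have hmap : ∀ m, amMap p q hp hq m = pmap (φ := famHom f g)
      (φ' := fun m => famHom (f' m) (g' m)) π hπ m := by
    intro m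
    apply am_hom_ext
    · intro x
      unfold amMap
      rw [amLift_inl]
      exact (pmap_of (φ := famHom f g) (φ' := fun m => famHom (f' m) (g' m)) π hπ m false x).symm
    · intro x
      unfold amMap
      rw [amLift_inr]
      exact (pmap_of (φ := famHom f g) (φ' := fun m => famHom (f' m) (g' m)) π hπ m true x).symm
  have key := approx (φ := famHom f g) (φ' := fun m => famHom (f' m) (g' m)) hφ hφ' π hπ (by
    intro i u hu
    cases i
    · exact h1 u hu
    · exact h2 u hu)
  constructor
  · intro z hz
    by_cases h0 : len hφ z = 0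
    · obtain ⟨e, rfl⟩ := len_zero hφ h0
      filter_upwards with m
      rw [hmap, pmap_base]
      intro h
      apply hz
      have h3 : e = 1 := by
        apply base_injective (hφ' m)
        rw [h, map_one]
      rw [h3, map_one]
    · filter_upwards [key z] with m hm
      rw [hmap]
      intro h
      rw [h, len_one] at hm
      exact h0 hm.2.symm
  · intro z hz
    have hz' : z ∉ (of (φ := famHom f g) true).range := hz
    filter_upwards [key z] with m hm
    rw [hmap]
    intro h
    apply hz'
    rw [mem_range_iff hφ]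
    have h' : pmap (φ := famHom f g) (φ' := fun m => famHom (f' m) (g' m)) π hπ m z ∈
        (of (φ := famHom (f' m) (g' m)) true).range := h
    rw [mem_range_iff (hφ' m), hm.1, hm.2] at h'
    exact h'

end

/-- tree width of an amalgamated product of two groups -/
theorem TW.am {E X Y : Type} [Group E] [Group X] [Group Y] {f : E →* X} {g : E →* Y}
    (hf : Function.Injective f) (hg : Function.Injective g) {𝒟X : Set (Subgroup X)}
    {𝒟Y : Set (Subgroup Y)} {w : ℕ} (hX : TW X 𝒟X w) (hY : TW Y 𝒟Y w)
    (hA : ∃ D ∈ 𝒟X, f.range ≤ D) (hA' : ∃ D ∈ 𝒟Y, g.range ≤ D) :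
    TW (Am f g) {D | (∃ D' ∈ 𝒟X, D = D'.map (inl f g)) ∨ ∃ D' ∈ 𝒟Y, D = D'.map (inr f g)} w := by
  let 𝒟 : ∀ b, Set (Subgroup (Fam X Y b)) := fun b => match b with
    | false => insert f.range 𝒟X
    | true => insert g.range 𝒟Y
  have h : ∀ b, TW (Fam X Y b) (𝒟 b) w := by
    intro b
    cases b
    · apply hX.mono
      rintro D' (rfl | hD')
      · exact hA
      · exact ⟨D', hD', le_rfl⟩
    · apply hY.mono
      rintro D' (rfl | hD')
      · exact hA'
      · exact ⟨D', hD', le_rfl⟩
  have h2 := TW.glue (famHom_inj hf hg) h (by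
    intro b
    cases b
    · exact Or.inl rfl
    · exact Or.inl rfl)
  apply h2.mono
  rintro D (⟨D', hD', rfl⟩ | ⟨D', hD', rfl⟩)
  · exact ⟨_, ⟨false, D', Or.inr hD', rfl⟩, le_rfl⟩
  · exact ⟨_, ⟨true, D', Or.inr hD', rfl⟩, le_rfl⟩

end Pool.Agent.Q257.Sep
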